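import Mathlib

open Finset

/-!
Proof idea. A core is a graph with 49 vertices and seven outgoing edges (ports). It has no proper
`3`-edge-colouring, but after removing any vertex `x` it has one in which all seven outgoing edges
get colour `0` (`uncolourable`, `col_nodup`). The graph `ringGraph n` consists of `2 n` disjoint
cores arranged in a ring. It is cubic and cyclically `5`-edge-connected (`ring_cut5`). A
cycle-continuous map between such graphs maps stars to stars (`star_of_cc`), hence it maps every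
core bijectively onto a core: otherwise the image of the core would be `3`-edge-colourable. Cores
have just enough rigidity (`map_ladj`, `core_covering`) to force the map to be a covering of the
rings, so `ringGraph n ≤ ringGraph m` implies `m ∣ n`.
-/

namespace Pool.Agent.Results.MP_75ff39_co.InfiniteAntichain

/-- A finite loopless graph; parallel edges are allowed. Every edge `e` has two distinct ends
`src e` and `tgt e`; their order plays no role in any notion below. -/
structure MultiGraph where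
  V : Type
  E : Type
  [fintypeV : Fintype V]
  [fintypeE : Fintype E]
  [decEqV : DecidableEq V]
  [decEqE : DecidableEq E]
  src : E → V
  tgt : E → V
  loopless : ∀ e, src e ≠ tgt e

attribute [instance] MultiGraph.fintypeV MultiGraph.fintypeE MultiGraph.decEqV MultiGraph.decEqE

namespace MultiGraph

/-- `v` is an end of the edge `e`. -/
def Inc (G : MultiGraph) (v : G.V) (e : G.E) : Prop := G.src e = v ∨ G.tgt e = v

instance (G : MultiGraph) (v : G.V) (e : G.E) : Decidable (G.Inc v e) := by
  unfold Inc; infer_instance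

/-- `φ` is a `ℤ₂`-flow: at every vertex the values on the incident edges sum to `0`. -/
def IsFlow (G : MultiGraph) (φ : G.E → ZMod 2) : Prop :=
  ∀ v, ∑ e with G.Inc v e, φ e = 0

/-- `f : E(G) → E(H)` is cycle-continuous: composing a `ℤ₂`-flow of `H` with `f` always gives a
`ℤ₂`-flow of `G`. -/
def IsCC (G H : MultiGraph) (f : G.E → H.E) : Prop :=
  ∀ φ : H.E → ZMod 2, H.IsFlow φ → G.IsFlow (fun e => φ (f e))

/-- `G ≤ H`: there is a cycle-continuous map `E(G) → E(H)`. -/
def Le (G H : MultiGraph) : Prop := ∃ f : G.E → H.E, IsCC G H f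

/-- Every vertex has exactly three incident edges. -/
def Cubic (G : MultiGraph) : Prop := ∀ v, #{e | G.Inc v e} = 3

/-- `u` and `v` lie in the same component of the graph obtained by deleting the edge set `F`. -/
def Reach (G : MultiGraph) (F : Finset G.E) : G.V → G.V → Prop :=
  Relation.ReflTransGen (fun u v => ∃ e, e ∉ F ∧ G.Inc u e ∧ G.Inc v e)

/-- `G` is connected. -/
def Connected (G : MultiGraph) : Prop := Nonempty G.V ∧ ∀ u v, G.Reach ∅ u v

/-- `Z` is the edge set of a nonempty `2`-regular subgraph, i.e. of a disjoint union of one or more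
cycles. -/
def TwoRegular (G : MultiGraph) (Z : Finset G.E) : Prop :=
  Z.Nonempty ∧ ∀ v, #{e ∈ Z | G.Inc v e} = 0 ∨ #{e ∈ Z | G.Inc v e} = 2

/-- After deletion of `F`, the component containing `v` contains a cycle. -/
def HasCycle (G : MultiGraph) (F : Finset G.E) (v : G.V) : Prop :=
  ∃ Z : Finset G.E, G.TwoRegular Z ∧ (∀ e ∈ Z, e ∉ F ∧ ∀ w, G.Inc w e → G.Reach F v w)

/-- `G` is cyclically `k`-edge-connected: no set `F` of fewer than `k` edges separates `G` into two
components that each contain a cycle. -/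
def CyclicallyEdgeConnected (G : MultiGraph) (k : ℕ) : Prop :=
  ∀ F : Finset G.E, #F < k → ∀ u v, G.HasCycle F u → G.HasCycle F v → G.Reach F u v

/-- The class `𝒞ₖ` of connected cubic cyclically `k`-edge-connected graphs. -/
def InClass (G : MultiGraph) (k : ℕ) : Prop :=
  G.Cubic ∧ G.Connected ∧ G.CyclicallyEdgeConnected k

end MultiGraph

open MultiGraph

section Abstract

variable {G H : MultiGraph}

/-- the two ends of an edge -/
lemma inc_iff (G : MultiGraph) (v : G.V) (e : G.E) : G.Inc v e ↔ v = G.src e ∨ v = G.tgt e := by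
  unfold Inc; constructor <;> rintro (h | h) <;> simp [h]

lemma reach_symm (G : MultiGraph) (F : Finset G.E) {u v : G.V} (h : G.Reach F u v) :
    G.Reach F v u := by
  unfold Reach at *
  induction h with
  | refl => exact Relation.ReflTransGen.refl
  | tail _ h2 ih =>
    obtain ⟨e, he, h3, h4⟩ := h2
    exact Relation.ReflTransGen.head ⟨e, he, h4, h3⟩ ih

lemma reach_trans (G : MultiGraph) (F : Finset G.E) {u v w : G.V} (h : G.Reach F u v)
    (h' : G.Reach F v w) : G.Reach F u w := Relation.ReflTransGen.trans h h'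

lemma reach_step (G : MultiGraph) (F : Finset G.E) {u v : G.V} {e : G.E} (he : e ∉ F)
    (h : G.Inc u e) (h' : G.Inc v e) : G.Reach F u v :=
  Relation.ReflTransGen.single ⟨e, he, h, h'⟩

/-- no two parallel edges -/
def Simple (G : MultiGraph) : Prop :=
  ∀ e e' : G.E, e ≠ e' → ∀ a b, G.Inc a e → G.Inc b e → G.Inc a e' → G.Inc b e' → a = b

/-- every edge cut with at least three vertices on both sides has at least five edges -/
def Cut5 (G : MultiGraph) : Prop :=
  ∀ U : G.V → Bool, 3 ≤ #{v | U v = true} → 3 ≤ #{v | U v = false} →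
    5 ≤ #{e | U (G.src e) ≠ U (G.tgt e)}

lemma three_of_two_edges (hs : Simple G) {P : G.V → Prop} [DecidablePred P] {a : G.V}
    {e e' : G.E} (hne : e ≠ e') (h : G.Inc a e) (h' : G.Inc a e')
    (hP : ∀ w, G.Inc w e → P w) (hP' : ∀ w, G.Inc w e' → P w) : 3 ≤ #{v | P v} := by
  obtain ⟨b, hb, hab⟩ : ∃ b, G.Inc b e ∧ b ≠ a := by
    rcases (inc_iff G a e).1 h with h1 | h1
    · exact ⟨G.tgt e, by simp [inc_iff], fun h2 => G.loopless e (by rw [← h1, ← h2])⟩
    · exact ⟨G.src e, by simp [inc_iff], fun h2 => G.loopless e (by rw [← h1, ← h2])⟩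
  obtain ⟨c, hc, hac⟩ : ∃ c, G.Inc c e' ∧ c ≠ a := by
    rcases (inc_iff G a e').1 h' with h1 | h1
    · exact ⟨G.tgt e', by simp [inc_iff], fun h2 => G.loopless e' (by rw [← h1, ← h2])⟩
    · exact ⟨G.src e', by simp [inc_iff], fun h2 => G.loopless e' (by rw [← h1, ← h2])⟩
  have hbc : b ≠ c := by
    rintro rfl
    exact hab (hs e e' hne b a hb h hc h')
  have hsub : ({a, b, c} : Finset G.V) ⊆ ({v | P v} : Finset G.V) := by
    intro x hx
    simp only [Finset.mem_insert, Finset.mem_singleton] at hx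
    simp only [Finset.mem_filter, Finset.mem_univ, true_and]
    rcases hx with rfl | rfl | rfl
    · exact hP _ h
    · exact hP _ hb
    · exact hP' _ hc
  have hcard : #({a, b, c} : Finset G.V) = 3 := by
    rw [Finset.card_eq_three]
    exact ⟨a, b, c, hab.symm, hac.symm, hbc, rfl⟩
  calc 3 = #({a, b, c} : Finset G.V) := hcard.symm
    _ ≤ _ := Finset.card_le_card hsub

/-- if the two ends of every edge outside `F` agree on `U` then the cut of `U` is small -/
lemma reach_of_cut5 (h5 : Cut5 G) (F : Finset G.E) (hF : #F < 5) (u v : G.V)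
    (hu : ∀ (Q : G.V → Prop) [DecidablePred Q], (∀ w, G.Reach F u w → Q w) → 3 ≤ #{w | Q w})
    (hv : ∀ (Q : G.V → Prop) [DecidablePred Q], (∀ w, G.Reach F v w → Q w) → 3 ≤ #{w | Q w}) :
    G.Reach F u v := by
  classical
  by_contra hcon
  set U : G.V → Bool := fun w => decide (G.Reach F u w) with hU
  have h1 : 3 ≤ #{w | U w = true} := hu _ (fun w hw => by simp [hU, hw])
  have h2 : 3 ≤ #{w | U w = false} := hv _ (fun w hw => by
    simp only [hU, decide_eq_false_iff_not]
    intro h3
    exact hcon (reach_trans G F h3 (reach_symm G F hw)))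
  have h3 := h5 U h1 h2
  have h4 : ({e | U (G.src e) ≠ U (G.tgt e)} : Finset G.E) ⊆ F := by
    intro e he
    by_contra heF
    simp only [Finset.mem_filter, Finset.mem_univ, true_and] at he
    apply he
    simp only [hU, decide_eq_decide]
    constructor
    · intro h; exact reach_trans G F h (reach_step G F heF (Or.inl rfl) (Or.inr rfl))
    · intro h; exact reach_trans G F h (reach_step G F heF (Or.inr rfl) (Or.inl rfl))
  have := Finset.card_le_card h4
  omega

lemma cyc_of_cut5 (hs : Simple G) (h5 : Cut5 G) (k : ℕ) (hk : k ≤ 5) :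
    G.CyclicallyEdgeConnected k := by
  intro F hF u v hu hv
  have key : ∀ u, G.HasCycle F u → ∀ (Q : G.V → Prop) [DecidablePred Q],
      (∀ w, G.Reach F u w → Q w) → 3 ≤ #{w | Q w} := by
    intro u hu Q _ hQ
    obtain ⟨Z, ⟨⟨e, he⟩, hZ⟩, hZF⟩ := hu
    set a := G.src e with ha
    have hae : G.Inc a e := Or.inl rfl
    have h2 : #{e ∈ Z | G.Inc a e} = 2 := by
      rcases hZ a with h | h
      · exfalso
        rw [Finset.card_eq_zero] at h
        have : e ∈ ({e ∈ Z | G.Inc a e} : Finset G.E) := by simp [he, hae]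
        rw [h] at this
        simp at this
      · exact h
    obtain ⟨e', he', hne⟩ : ∃ e' ∈ ({e ∈ Z | G.Inc a e} : Finset G.E), e' ≠ e := by
      apply Finset.exists_mem_ne
      omega
    simp only [Finset.mem_filter] at he'
    exact three_of_two_edges hs hne.symm hae he'.2 (fun w hw => hQ w ((hZF e he).2 w hw))
      (fun w hw => hQ w ((hZF e' he'.1).2 w hw))
  exact reach_of_cut5 h5 F (by omega) u v (key u hu) (key v hv)

lemma conn_of_cut5 (hs : Simple G) (h5 : Cut5 G) (hc : G.Cubic) (hne : Nonempty G.V) :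
    G.Connected := by
  refine ⟨hne, ?_⟩
  intro u v
  have key : ∀ u, ∀ (Q : G.V → Prop) [DecidablePred Q],
      (∀ w, G.Reach ∅ u w → Q w) → 3 ≤ #{w | Q w} := by
    intro u Q _ hQ
    have h3 := hc u
    obtain ⟨e, he⟩ : ({e | G.Inc u e} : Finset G.E).Nonempty := by
      rw [← Finset.card_pos]; omega
    obtain ⟨e', he', hne⟩ : ∃ e' ∈ ({e | G.Inc u e} : Finset G.E), e' ≠ e := by
      apply Finset.exists_mem_ne
      omega
    simp only [Finset.mem_filter, Finset.mem_univ, true_and] at he he'
    exact three_of_two_edges hs hne.symm he he' 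
      (fun w hw => hQ w (reach_step G ∅ (by simp) he hw))
      (fun w hw => hQ w (reach_step G ∅ (by simp) he' hw))
  exact reach_of_cut5 h5 ∅ (by simp) u v (key u) (key v)


/-- a linear functional vanishing on the flows is a coboundary -/
lemma coboundary (H : MultiGraph) (L : (H.E → ZMod 2) →ₗ[ZMod 2] ZMod 2)
    (hL : ∀ φ, H.IsFlow φ → L φ = 0) :
    ∃ γ : H.V → ZMod 2, ∀ e, L (Pi.single e 1) = γ (H.src e) + γ (H.tgt e) := by
  classical
  let bd : (H.E → ZMod 2) →ₗ[ZMod 2] (H.V → ZMod 2) :=
    { toFun := fun φ v => ∑ e with H.Inc v e, φ e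
      map_add' := by
        intro a b; funext v; simp [Finset.sum_add_distrib]
      map_smul' := by
        intro c a; funext v; simp [Finset.mul_sum] }
  have hmem : L ∈ (LinearMap.ker bd).dualAnnihilator := by
    rw [Submodule.mem_dualAnnihilator]
    intro w hw
    apply hL
    intro v
    have := congrFun (LinearMap.mem_ker.1 hw) v
    simpa [bd] using this
  rw [← LinearMap.range_dualMap_eq_dualAnnihilator_ker] at hmem
  obtain ⟨g, hg⟩ := hmem
  refine ⟨fun v => g (Pi.single v 1), ?_⟩
  intro e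
  have h1 : L (Pi.single e 1) = g (bd (Pi.single e 1)) := by rw [← hg]; rfl
  have h2 : bd (Pi.single e 1) = Pi.single (H.src e) 1 + Pi.single (H.tgt e) 1 := by
    funext v
    simp only [bd, LinearMap.coe_mk, AddHom.coe_mk, Pi.add_apply]
    rw [Finset.sum_filter]
    rw [Finset.sum_eq_single e]
    · simp only [Pi.single_eq_same]
      have hne := H.loopless e
      by_cases h1 : H.src e = v
      · subst h1
        simp [Inc, Pi.single_apply, hne]
      · by_cases h2 : H.tgt e = v
        · subst h2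
          simp [Inc, Pi.single_apply, hne.symm]
        · simp [Inc, h1, h2, Pi.single_apply, Ne.symm h1, Ne.symm h2]
    · intro e' _ he'
      simp [Pi.single_apply, he']
    · simp
  rw [h1, h2, map_add]

lemma zmod2_cases (a : ZMod 2) : a = 0 ∨ a = 1 := by
  revert a; decide

lemma star_of_cc (hG : G.Cubic) (hH : H.Cubic) (h5 : Cut5 H) (hev : Even (Fintype.card H.V))
    (f : G.E → H.E) (hf : IsCC G H f) (v : G.V) :
    ∃ x : H.V, (∀ e, G.Inc v e → H.Inc x (f e)) ∧
      (∀ e e', G.Inc v e → G.Inc v e' → f e = f e' → e = e') := by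
  classical
  set S : Finset G.E := {e | G.Inc v e} with hS
  have hS3 : #S = 3 := hG v
  let L : (H.E → ZMod 2) →ₗ[ZMod 2] ZMod 2 :=
    { toFun := fun φ => ∑ e ∈ S, φ (f e)
      map_add' := by intro a b; simp [Finset.sum_add_distrib]
      map_smul' := by intro c a; simp [Finset.mul_sum] }
  obtain ⟨γ, hγ⟩ := coboundary H L (fun φ hφ => hf φ hφ v)
  set T : H.E → ZMod 2 := fun e' => L (Pi.single e' 1) with hT
  have hTe : ∀ e', T e' = ∑ e ∈ S, if f e = e' then 1 else 0 := by
    intro e'
    simp only [hT, L, LinearMap.coe_mk, AddHom.coe_mk]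
    apply Finset.sum_congr rfl
    intro e _
    simp [Pi.single_apply]
  set U : H.V → Bool := fun w => decide (γ w = 1) with hU
  have hcut : ∀ e', U (H.src e') ≠ U (H.tgt e') ↔ T e' ≠ 0 := by
    intro e'
    have h1 : T e' = γ (H.src e') + γ (H.tgt e') := hγ e'
    rw [h1]
    simp only [hU]
    rcases zmod2_cases (γ (H.src e')) with h | h <;> rcases zmod2_cases (γ (H.tgt e')) with h' | h' <;>
      rw [h, h'] <;> decide
  have himg : ({e | U (H.src e) ≠ U (H.tgt e)} : Finset H.E) ⊆ S.image f := by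
    intro e' he'
    simp only [Finset.mem_filter, Finset.mem_univ, true_and] at he'
    rw [hcut, hTe] at he'
    obtain ⟨e, he, h⟩ := Finset.exists_ne_zero_of_sum_ne_zero he'
    rw [Finset.mem_image]
    refine ⟨e, he, ?_⟩
    by_contra hne
    simp [hne] at h
  have hc3 : #(S.image f) ≤ 3 := by
    calc _ ≤ #S := Finset.card_image_le
      _ = 3 := hS3
  have hc : #({e | U (H.src e) ≠ U (H.tgt e)} : Finset H.E) ≤ 3 :=
    (Finset.card_le_card himg).trans hc3
  -- parity
  have hodd : ((#{w | U w = true} : ℕ) : ZMod 2) = 1 := by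
    have h1 : ∑ e', T e' = 1 := by
      have : ∑ e', T e' = ∑ e ∈ S, (1 : ZMod 2) := by
        simp_rw [hTe]
        rw [Finset.sum_comm]
        apply Finset.sum_congr rfl
        intro e _
        simp
      rw [this]
      simp [hS3]
      decide
    have h2 : ∑ e', T e' = ∑ w, γ w := by
      have h3 : ∀ e', T e' = ∑ w, if H.Inc w e' then γ w else 0 := by
        intro e'
        have h4 : T e' = γ (H.src e') + γ (H.tgt e') := hγ e'
        rw [h4]
        have h5 : ∀ w, (if H.Inc w e' then γ w else 0)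
            = (if H.src e' = w then γ w else 0) + (if H.tgt e' = w then γ w else 0) := by
          intro w
          have hne := H.loopless e'
          by_cases h1 : H.src e' = w
          · subst h1
            simp [Inc, hne.symm]
          · by_cases h2 : H.tgt e' = w
            · subst h2
              simp [Inc, hne]
            · simp [Inc, h1, h2]
        simp_rw [h5]
        rw [Finset.sum_add_distrib]
        simp
      simp_rw [h3]
      rw [Finset.sum_comm]
      apply Finset.sum_congr rfl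
      intro w _
      rw [← Finset.sum_filter, Finset.sum_const, hH w]
      rcases zmod2_cases (γ w) with h | h <;> rw [h] <;> decide
    have h3 : ∑ w, γ w = ((#{w | U w = true} : ℕ) : ZMod 2) := by
      rw [Finset.card_filter]
      push_cast
      apply Finset.sum_congr rfl
      intro w _
      simp only [hU]
      rcases zmod2_cases (γ w) with h | h <;> rw [h] <;> decide
    rw [← h3, ← h2, h1]
  have hodd' : Odd (#{w | U w = true}) := by
    rw [← ZMod.natCast_eq_one_iff_odd]; exact hodd
  have hsum : #{w | U w = true} + #{w | U w = false} = Fintype.card H.V := by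
    have := Finset.card_filter_add_card_filter_not (s := (Finset.univ : Finset H.V)) (fun w => U w = true)
    simpa using this
  have hx : ∃ x, ∀ e', (U (H.src e') ≠ U (H.tgt e')) ↔ H.Inc x e' := by
    by_cases h1 : 3 ≤ #{w | U w = true}
    · by_cases h2 : 3 ≤ #{w | U w = false}
      · have := h5 U h1 h2
        omega
      · have h3 : #{w | U w = false} = 1 := by
          obtain ⟨a, ha⟩ := hodd'
          obtain ⟨b, hb⟩ := hev
          omega
        obtain ⟨x, hx⟩ := Finset.card_eq_one.1 h3
        have hx' : ∀ w, U w = false ↔ w = x := by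
          intro w
          have : w ∈ ({w | U w = false} : Finset H.V) ↔ w ∈ ({x} : Finset H.V) := by rw [hx]
          simpa using this
        refine ⟨x, ?_⟩
        intro e'
        have hne := H.loopless e'
        have ha := hx' (H.src e')
        have hb := hx' (H.tgt e')
        unfold Inc
        cases h4 : U (H.src e') <;> cases h5 : U (H.tgt e') <;> simp [h4, h5] at ha hb ⊢
        · exact absurd (ha.trans hb.symm) hne
        · left; exact ha
        · right; exact hb
        · exact ⟨ha, hb⟩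
    · have h3 : #{w | U w = true} = 1 := by
        obtain ⟨a, ha⟩ := hodd'
        omega
      obtain ⟨x, hx⟩ := Finset.card_eq_one.1 h3
      have hx' : ∀ w, U w = true ↔ w = x := by
        intro w
        have : w ∈ ({w | U w = true} : Finset H.V) ↔ w ∈ ({x} : Finset H.V) := by rw [hx]
        simpa using this
      refine ⟨x, ?_⟩
      intro e'
      have hne := H.loopless e'
      have ha := hx' (H.src e')
      have hb := hx' (H.tgt e')
      unfold Inc
      cases h4 : U (H.src e') <;> cases h5 : U (H.tgt e') <;> simp [h4, h5] at ha hb ⊢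
      · exact ⟨ha, hb⟩
      · right; exact hb
      · left; exact ha
      · exact absurd (ha.trans hb.symm) hne
  obtain ⟨x, hx⟩ := hx
  have hstar : ({e | H.Inc x e} : Finset H.E) ⊆ S.image f := by
    intro e' he'
    apply himg
    simp only [Finset.mem_filter, Finset.mem_univ, true_and] at he' ⊢
    exact (hx e').2 he'
  have heq : ({e | H.Inc x e} : Finset H.E) = S.image f := by
    apply Finset.eq_of_subset_of_card_le hstar
    rw [hH x]; exact hc3
  have hinj : Set.InjOn f S := by
    rw [← Finset.card_image_iff, ← heq, hH x, hS3]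
  refine ⟨x, ?_, ?_⟩
  · intro e he
    have : f e ∈ S.image f := Finset.mem_image_of_mem f (by simp [hS, he])
    rw [← heq] at this
    simpa using this
  · intro e e' he he' hee
    exact hinj (by simp [hS, he]) (by simp [hS, he']) hee

end Abstract

section Core

/-- vertices of a core: seven copies of a theta graph with seven vertices -/
abbrev CV := Fin 7 × Fin 7

/-- internal edges of a core: for each `s` the eight edges of the `s`-th theta graph and the two
edges joining it to the next one -/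
abbrev CE := Fin 7 × Fin 10

def eu (j : Fin 10) : Fin 7 := ![0, 0, 1, 1, 2, 2, 3, 4, 5, 6] j
def ev (j : Fin 10) : Fin 7 := ![1, 2, 3, 5, 4, 6, 6, 5, 3, 4] j
def sh (j : Fin 10) : Fin 7 := ![0, 0, 0, 0, 0, 0, 0, 0, 1, 1] j

def csrc (e : CE) : CV := (e.1, eu e.2)
def ctgt (e : CE) : CV := (e.1 + sh e.2, ev e.2)

/-- incidence inside a core -/
def CInc (x : CV) (e : CE) : Prop := csrc e = x ∨ ctgt e = x

instance (x : CV) (e : CE) : Decidable (CInc x e) := by unfold CInc; infer_instance

/-- the label permutation used along the edges between different cores -/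
def pm (s : Fin 7) : Fin 7 := ![0, 2, 1, 3, 4, 6, 5] s

/-- list of internal edges at a vertex of the core -/
def stl (x : CV) : List CE :=
  ![[(x.1, 0), (x.1, 1)], [(x.1, 0), (x.1, 2), (x.1, 3)], [(x.1, 1), (x.1, 4), (x.1, 5)],
    [(x.1, 2), (x.1, 6), (x.1 - 1, 8)], [(x.1, 4), (x.1, 7), (x.1 - 1, 9)],
    [(x.1, 3), (x.1, 7), (x.1, 8)], [(x.1, 5), (x.1, 6), (x.1, 9)]] x.2

lemma stl_spec : ∀ (x : CV) (e : CE), CInc x e ↔ e ∈ stl x := by
  decide +kernel

lemma stl_card : ∀ (x : CV), #{e | CInc x e} = if x.2 = 0 then 2 else 3 := by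
  decide +kernel

lemma csrc_ne_ctgt : ∀ e : CE, csrc e ≠ ctgt e := by decide +kernel

lemma pm_pm : ∀ s, pm (pm s) = s := by decide

lemma pm_lt : ∀ s, (pm s < 4 ↔ s < 4) := by decide

/-- neighbours inside the core -/
def nbl (x : CV) : List CV :=
  (stl x).map (fun e => if csrc e = x then ctgt e else csrc e)

lemma nbl_spec : ∀ (x : CV) (e : CE), CInc x e → ∀ y, CInc y e → y = x ∨ y ∈ nbl x := by
  decide +kernel

end Core

section Colour

def base0 (v : Fin 7) (j : Fin 10) : Fin 3 :=
  ![![1, 1, 0, 2, 2, 0, 2, 0, 1, 1],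
    ![2, 1, 0, 2, 2, 0, 2, 0, 1, 1],
    ![1, 2, 0, 2, 2, 0, 2, 0, 1, 1],
    ![2, 1, 1, 0, 0, 2, 0, 2, 1, 1],
    ![1, 2, 0, 2, 1, 0, 2, 0, 1, 1],
    ![2, 1, 0, 1, 2, 0, 2, 0, 1, 1],
    ![1, 2, 2, 0, 0, 1, 0, 2, 1, 1]] v j

def pOdd (j : Fin 10) : Fin 3 := ![1, 2, 2, 0, 0, 1, 0, 2, 1, 2] j
def pEven (j : Fin 10) : Fin 3 := ![1, 2, 0, 2, 1, 0, 2, 0, 1, 1] j

/-- colouring of the internal edges of the core which is proper away from the vertex `(0, v)`, when
all outgoing edges receive colour `0` -/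
def col0 (v : Fin 7) (e : CE) : Fin 3 :=
  if e.1 = 0 then base0 v e.2
  else if e.1.val % 2 = 1 then pOdd e.2 else pEven e.2

/-- the same colouring shifted, proper away from the vertex `x` -/
def col (x : CV) (e : CE) : Fin 3 := col0 x.2 (e.1 - x.1, e.2)

lemma col0_nodup : ∀ v : Fin 7, ∀ y : CV, y ≠ (0, v) →
    ((stl y).map (col0 v) ++ (if y.2 = 0 then [0] else [])).Nodup := by
  decide +kernel

lemma stl_shift (a : Fin 7) (y : CV) :
    (stl y).map (fun e => (e.1 - a, e.2)) = stl (y.1 - a, y.2) := by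
  revert a y
  decide +kernel

lemma col_nodup (x y : CV) (h : y ≠ x) :
    ((stl y).map (col x) ++ (if y.2 = 0 then [0] else [])).Nodup := by
  have h1 : (y.1 - x.1, y.2) ≠ ((0, x.2) : CV) := by
    intro h2
    apply h
    simp only [Prod.mk.injEq, sub_eq_zero] at h2
    exact Prod.ext h2.1 h2.2
  have h2 := col0_nodup x.2 (y.1 - x.1, y.2) h1
  rw [← stl_shift, List.map_map] at h2
  exact h2

lemma col_inj (x y : CV) (h : y ≠ x) : ∀ e ∈ stl y, ∀ e' ∈ stl y, col x e = col x e' → e = e' := by
  intro e he e' he' hee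
  have h1 := (List.nodup_append.1 (col_nodup x y h)).1
  exact List.inj_on_of_nodup_map h1 he he' hee

lemma col_ne (x y : CV) (h : y ≠ x) (hy : y.2 = 0) : ∀ e ∈ stl y, col x e ≠ 0 := by
  intro e he
  have h1 := (List.nodup_append.1 (col_nodup x y h)).2.2
  exact h1 _ (List.mem_map_of_mem he) 0 (by simp [hy])

lemma negator : ∀ e0 e1 q : Fin 3, e0 ≠ e1 → e0 ≠ q → e1 ≠ q → ∀ e2 e3, e0 ≠ e2 → e0 ≠ e3 →
    e2 ≠ e3 → ∀ e4 e5, e1 ≠ e4 → e1 ≠ e5 → e4 ≠ e5 → ∀ e6, e2 ≠ e6 → e5 ≠ e6 → ∀ e7, e4 ≠ e7 →
    e3 ≠ e7 → ∀ a1, e2 ≠ a1 → e6 ≠ a1 → ∀ a2, e4 ≠ a2 → e7 ≠ a2 → ∀ b1, e3 ≠ b1 → e7 ≠ b1 →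
    ∀ b2, e5 ≠ b2 → e6 ≠ b2 → (decide (b1 = b2)) = !(decide (a1 = a2)) := by
  decide +kernel

lemma uncolourable (c : CE → Fin 3) (p : Fin 7 → Fin 3)
    (h1 : ∀ y : CV, ∀ e ∈ stl y, ∀ e' ∈ stl y, e ≠ e' → c e ≠ c e')
    (h2 : ∀ s : Fin 7, ∀ e ∈ stl (s, 0), c e ≠ p s) : False := by
  have key : ∀ s : Fin 7, decide (c (s, 8) = c (s, 9)) = !(decide (c (s - 1, 8) = c (s - 1, 9))) := by
    intro s
    refine negator (c (s, 0)) (c (s, 1)) (p s) ?_ ?_ ?_ (c (s, 2)) (c (s, 3)) ?_ ?_ ?_
      (c (s, 4)) (c (s, 5)) ?_ ?_ ?_ (c (s, 6)) ?_ ?_ (c (s, 7)) ?_ ?_ (c (s - 1, 8)) ?_ ?_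
      (c (s - 1, 9)) ?_ ?_ (c (s, 8)) ?_ ?_ (c (s, 9)) ?_ ?_
    · exact h1 (s, 0) _ (by simp [stl]) _ (by simp [stl]) (by simp)
    · exact h2 s _ (by simp [stl])
    · exact h2 s _ (by simp [stl])
    · exact h1 (s, 1) _ (by simp [stl]) _ (by simp [stl]) (by simp)
    · exact h1 (s, 1) _ (by simp [stl]) _ (by simp [stl]) (by simp)
    · exact h1 (s, 1) _ (by simp [stl]) _ (by simp [stl]) (by simp)
    · exact h1 (s, 2) _ (by simp [stl]) _ (by simp [stl]) (by simp)
    · exact h1 (s, 2) _ (by simp [stl]) _ (by simp [stl]) (by simp)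
    · exact h1 (s, 2) _ (by simp [stl]) _ (by simp [stl]) (by simp)
    · exact h1 (s, 3) _ (by simp [stl]) _ (by simp [stl]) (by simp)
    · exact h1 (s, 6) _ (by simp [stl]) _ (by simp [stl]) (by simp)
    · exact h1 (s, 4) _ (by simp [stl]) _ (by simp [stl]) (by simp)
    · exact h1 (s, 5) _ (by simp [stl]) _ (by simp [stl]) (by simp)
    · exact h1 (s, 3) _ (by simp [stl]) _ (by simp [stl]) (by simp)
    · exact h1 (s, 3) _ (by simp [stl]) _ (by simp [stl]) (by simp)
    · exact h1 (s, 4) _ (by simp [stl]) _ (by simp [stl]) (by simp)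
    · exact h1 (s, 4) _ (by simp [stl]) _ (by simp [stl]) (by simp)
    · exact h1 (s, 5) _ (by simp [stl]) _ (by simp [stl]) (by simp)
    · exact h1 (s, 5) _ (by simp [stl]) _ (by simp [stl]) (by simp)
    · exact h1 (s, 6) _ (by simp [stl]) _ (by simp [stl]) (by simp)
    · exact h1 (s, 6) _ (by simp [stl]) _ (by simp [stl]) (by simp)
  have k0 := key 0
  have k1 := key 1
  have k2 := key 2
  have k3 := key 3
  have k4 := key 4
  have k5 := key 5
  have k6 := key 6
  have e0 : (0 : Fin 7) - 1 = 6 := by decide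
  have e1 : (1 : Fin 7) - 1 = 0 := by decide
  have e2 : (2 : Fin 7) - 1 = 1 := by decide
  have e3 : (3 : Fin 7) - 1 = 2 := by decide
  have e4 : (4 : Fin 7) - 1 = 3 := by decide
  have e5 : (5 : Fin 7) - 1 = 4 := by decide
  have e6 : (6 : Fin 7) - 1 = 5 := by decide
  rw [e0] at k0
  rw [e1, k0] at k1
  rw [e2, k1] at k2
  rw [e3, k2] at k3
  rw [e4, k3] at k4
  rw [e5, k4] at k5
  rw [e6, k5] at k6
  revert k6
  cases decide (c (6, 8) = c (6, 9)) <;> simp

end Colour

section Ring

variable {n : ℕ}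

/-- the neighbouring core which is joined to the core `i` by the edge at the port with label `s` -/
def nb (i : ZMod n × Bool) (s : Fin 7) : ZMod n × Bool :=
  match i with
  | (k, false) => (if s < 4 then k else k - 1, true)
  | (k, true) => (if s < 4 then k else k + 1, false)

/-- the edge leaving the core `i` at the port with label `s` -/
def ce (i : ZMod n × Bool) (s : Fin 7) : ZMod n × Fin 7 :=
  match i with
  | (k, false) => (k, s)
  | (k, true) => (if s < 4 then k else k + 1, pm s)

/-- vertices of the ring graph -/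
abbrev RV (n : ℕ) := (ZMod n × Bool) × CV

/-- edges of the ring graph -/
abbrev RE (n : ℕ) := ((ZMod n × Bool) × CE) ⊕ (ZMod n × Fin 7)

def rsrc (e : RE n) : RV n :=
  match e with
  | Sum.inl (i, e) => (i, csrc e)
  | Sum.inr (k, s) => ((k, false), (s, 0))

def rtgt (e : RE n) : RV n :=
  match e with
  | Sum.inl (i, e) => (i, ctgt e)
  | Sum.inr (k, s) => (nb (k, false) s, (pm s, 0))

lemma rsrc_ne (e : RE n) : rsrc e ≠ rtgt e := by
  match e with
  | Sum.inl (i, e) =>
    simp only [rsrc, rtgt, ne_eq, Prod.mk.injEq, true_and]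
    exact csrc_ne_ctgt e
  | Sum.inr (k, s) => simp [nb, rsrc, rtgt]

/-- The graph: `2 n` cores arranged in a ring, consecutive ones joined alternately by four and by
three edges. -/
def ringGraph (n : ℕ) [NeZero n] : MultiGraph where
  V := RV n
  E := RE n
  src := rsrc
  tgt := rtgt
  loopless := rsrc_ne

/-- incidence in the ring graph -/
def RInc (v : RV n) (e : RE n) : Prop := rsrc e = v ∨ rtgt e = v

instance (v : RV n) (e : RE n) : Decidable (RInc v e) := by unfold RInc; infer_instance

lemma nb_ne (i : ZMod n × Bool) (s : Fin 7) : nb i s ≠ i := by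
  rcases i with ⟨k, b⟩
  cases b <;> simp [nb]

lemma inc_inl (i i' : ZMod n × Bool) (x : CV) (e : CE) :
    RInc (i, x) (Sum.inl (i', e)) ↔ i = i' ∧ CInc x e := by
  unfold RInc CInc rsrc rtgt
  simp only [Prod.mk.injEq]
  constructor
  · rintro (⟨h, h'⟩ | ⟨h, h'⟩)
    · exact ⟨h.symm, Or.inl h'⟩
    · exact ⟨h.symm, Or.inr h'⟩
  · rintro ⟨h, h' | h'⟩
    · exact Or.inl ⟨h.symm, h'⟩
    · exact Or.inr ⟨h.symm, h'⟩

lemma inc_inr (i : ZMod n × Bool) (s : Fin 7) (v : RV n) :
    RInc v (Sum.inr (ce i s)) ↔ v = (i, (s, 0)) ∨ v = (nb i s, (pm s, 0)) := by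
  rcases i with ⟨k, b⟩
  cases b
  · unfold RInc rsrc rtgt ce
    constructor
    · rintro (h | h)
      · exact Or.inl h.symm
      · exact Or.inr h.symm
    · rintro (h | h)
      · exact Or.inl h.symm
      · exact Or.inr h.symm
  · have h1 : rtgt (n := n) (Sum.inr (ce (k, true) s)) = ((k, true), (s, 0)) := by
      simp only [rtgt, ce, nb, pm_pm, pm_lt]
      by_cases h : s < 4 <;> simp [h]
    have h2 : rsrc (n := n) (Sum.inr (ce (k, true) s)) = (nb (k, true) s, (pm s, 0)) := by
      simp only [rsrc, ce, nb]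
    unfold RInc
    rw [h1, h2]
    constructor
    · rintro (h | h)
      · exact Or.inr h.symm
      · exact Or.inl h.symm
    · rintro (h | h)
      · exact Or.inr h.symm
      · exact Or.inl h.symm

lemma nb_nb (i : ZMod n × Bool) (s : Fin 7) : nb (nb i s) (pm s) = i := by
  rcases i with ⟨k, b⟩
  cases b <;> simp only [nb, pm_lt] <;> by_cases h : s < 4 <;> simp [h]

lemma ce_nb (i : ZMod n × Bool) (s : Fin 7) : ce (nb i s) (pm s) = ce i s := by
  rcases i with ⟨k, b⟩
  cases b <;> simp only [nb, ce, pm_lt, pm_pm] <;> by_cases h : s < 4 <;> simp [h]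

lemma ce_inj (i : ZMod n × Bool) (s t : Fin 7) (h : ce i s = ce i t) : s = t := by
  rcases i with ⟨k, b⟩
  cases b
  · simpa [ce] using h
  · simp only [ce, Prod.mk.injEq] at h
    have := congrArg pm h.2
    simpa [pm_pm] using this

lemma inc_inr' (i : ZMod n × Bool) (x : CV) (c : ZMod n × Fin 7) :
    RInc (i, x) (Sum.inr c) ↔ x.2 = 0 ∧ c = ce i x.1 := by
  have hc : c = ce (c.1, false) c.2 := rfl
  constructor
  · intro h
    rw [hc, inc_inr] at h
    rcases h with h | h
    · simp only [Prod.mk.injEq] at h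
      obtain ⟨h1, h2⟩ := h
      subst h1
      subst h2
      exact ⟨rfl, rfl⟩
    · simp only [Prod.mk.injEq] at h
      obtain ⟨h1, h2⟩ := h
      subst h1
      subst h2
      refine ⟨rfl, ?_⟩
      rw [ce_nb]
      exact hc
  · rintro ⟨h1, h2⟩
    subst h2
    rw [inc_inr]
    left
    rcases x with ⟨s, v⟩
    simp only at h1
    subst h1
    rfl

lemma ring_cubic' [NeZero n] (v : RV n) : #{e : RE n | RInc v e} = 3 := by
  obtain ⟨i, x⟩ := v
  have h : ({e | RInc (i, x) e} : Finset (RE n)) =
      (({e | CInc x e} : Finset CE).map ⟨fun e => Sum.inl (i, e), by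
        intro a b h; simpa using h⟩) ∪
      (if x.2 = 0 then {Sum.inr (ce i x.1)} else ∅) := by
    ext e
    simp only [Finset.mem_filter, Finset.mem_univ, true_and, Finset.mem_union, Finset.mem_map,
      Function.Embedding.coeFn_mk]
    match e with
    | Sum.inl (i', e) =>
      rw [inc_inl]
      constructor
      · rintro ⟨rfl, h⟩
        left
        exact ⟨e, h, rfl⟩
      · rintro (⟨e', h, h'⟩ | h)
        · simp only [Sum.inl.injEq, Prod.mk.injEq] at h'
          obtain ⟨rfl, rfl⟩ := h'
          exact ⟨rfl, h⟩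
        · split_ifs at h <;> simp at h
    | Sum.inr c =>
      rw [inc_inr']
      constructor
      · rintro ⟨h, h'⟩
        right
        rw [if_pos h, h']
        simp
      · rintro (⟨e', h, h'⟩ | h)
        · simp at h'
        · split_ifs at h with h0
          · simp only [Finset.mem_singleton, Sum.inr.injEq] at h
            exact ⟨h0, h⟩
          · simp at h
  rw [h, Finset.card_union_of_disjoint, Finset.card_map, stl_card]
  · split_ifs <;> simp
  · rw [Finset.disjoint_left]
    intro e he he'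
    simp only [Finset.mem_map, Function.Embedding.coeFn_mk] at he
    obtain ⟨a, _, rfl⟩ := he
    split_ifs at he' <;> simp at he'

lemma ring_cubic [NeZero n] : (ringGraph n).Cubic := fun v => ring_cubic' v

lemma core_simple : ∀ e e' : CE, CInc (csrc e) e' → CInc (ctgt e) e' → e = e' := by
  decide +kernel

lemma cinc_iff (x : CV) (e : CE) : CInc x e ↔ x = csrc e ∨ x = ctgt e := by
  unfold CInc; constructor <;> rintro (h | h) <;> simp [h]

lemma ring_simple' (e e' : RE n) (hne : e ≠ e') (a b : RV n) (ha : RInc a e) (hb : RInc b e)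
    (ha' : RInc a e') (hb' : RInc b e') : a = b := by
  have h1 : ∀ (i : ZMod n × Bool) (e : CE) (c : ZMod n × Fin 7) (a b : RV n),
      RInc a (Sum.inl (i, e)) → RInc b (Sum.inl (i, e)) →
      RInc a (Sum.inr c) → RInc b (Sum.inr c) → a = b := by
    rintro i e c ⟨ia, x⟩ ⟨ib, y⟩ h1 h2 h3 h4
    rw [inc_inl] at h1 h2
    obtain ⟨rfl, h1⟩ := h1
    obtain ⟨rfl, h2⟩ := h2
    rw [inc_inr'] at h3
    obtain ⟨h3, rfl⟩ := h3
    rw [inc_inr] at h4
    rcases h4 with h4 | h4
    · rw [h4]
      simp only [Prod.mk.injEq, true_and]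
      exact Prod.ext rfl h3
    · exfalso
      simp only [Prod.mk.injEq] at h4
      exact nb_ne _ _ h4.1.symm
  match e, e' with
  | Sum.inl (i, e), Sum.inl (i', e') =>
    obtain ⟨ia, x⟩ := a
    obtain ⟨ib, y⟩ := b
    rw [inc_inl] at ha hb ha' hb'
    obtain ⟨rfl, ha⟩ := ha
    obtain ⟨rfl, hb⟩ := hb
    obtain ⟨rfl, ha'⟩ := ha'
    obtain ⟨_, hb'⟩ := hb'
    by_contra hab
    have hxy : x ≠ y := fun h => hab (by rw [h])
    apply hne
    have : e = e' := by
      rw [cinc_iff] at ha hb
      rcases ha with rfl | rfl <;> rcases hb with rfl | rfl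
      · exact absurd rfl hxy
      · exact core_simple e e' ha' hb'
      · exact core_simple e e' hb' ha'
      · exact absurd rfl hxy
    rw [this]
  | Sum.inl (i, e), Sum.inr c => exact h1 i e c a b ha hb ha' hb'
  | Sum.inr c, Sum.inl (i, e) => exact h1 i e c a b ha' hb' ha hb
  | Sum.inr c, Sum.inr c' =>
    exfalso
    obtain ⟨ia, x⟩ := a
    rw [inc_inr'] at ha ha'
    exact hne (by rw [ha.2, ha'.2])

lemma ring_simple [NeZero n] : Simple (ringGraph n) := fun e e' hne a b ha hb ha' hb' =>
  ring_simple' e e' hne a b ha hb ha' hb'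

end Ring

section Cuts

/-- `1` if the two values differ and `0` otherwise -/
def dd (x y : Bool) : ℕ := (x ^^ y).toNat

lemma dd_self (x : Bool) : dd x x = 0 := by cases x <;> rfl
lemma dd_comm (x y : Bool) : dd x y = dd y x := by cases x <;> cases y <;> rfl
lemma dd_tri (x y a b : Bool) : dd a b ≤ dd x y + (dd x a + dd y b) := by
  cases x <;> cases y <;> cases a <;> cases b <;> decide
lemma dd_ne {x y : Bool} (h : x ≠ y) : dd x y = 1 := by
  cases x <;> cases y <;> first | exact absurd rfl h | rfl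
lemma dd_eq_zero {x y : Bool} (h : dd x y = 0) : x = y := by
  cases x <;> cases y <;> first | rfl | exact absurd h (by decide)
lemma dd_and (x y : Bool) : dd x y + 2 * (x && y).toNat = x.toNat + y.toNat := by
  cases x <;> cases y <;> rfl
lemma dd_not (x y : Bool) : dd (!x) (!y) = dd x y := by cases x <;> cases y <;> rfl

/-- number of cut edges inside one theta graph -/
def tI (w : Fin 7 → Bool) : ℕ :=
  dd (w 0) (w 1) + dd (w 0) (w 2) + dd (w 1) (w 3) + dd (w 1) (w 5) + dd (w 2) (w 4) +
    dd (w 2) (w 6) + dd (w 3) (w 6) + dd (w 4) (w 5)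

/-- majority value of the five vertices of a theta graph that have an outgoing edge -/
def maj5 (w : Fin 7 → Bool) : Bool :=
  decide (3 ≤ (w 0).toNat + (w 3).toNat + (w 4).toNat + (w 5).toNat + (w 6).toNat)

/-- majority of seven values -/
def maj7 (w : Fin 7 → Bool) : Bool :=
  decide (4 ≤ (w 0).toNat + (w 1).toNat + (w 2).toNat + (w 3).toNat + (w 4).toNat + (w 5).toNat +
    (w 6).toNat)

def ring7 (w : Fin 7 → Bool) : ℕ :=
  2 * (dd (w 0) (w 1) + dd (w 1) (w 2) + dd (w 2) (w 3) + dd (w 3) (w 4) + dd (w 4) (w 5) +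
    dd (w 5) (w 6) + dd (w 6) (w 0))

def dev7 (w : Fin 7 → Bool) (m : Bool) : ℕ :=
  dd (w 0) m + dd (w 1) m + dd (w 2) m + dd (w 3) m + dd (w 4) m + dd (w 5) m + dd (w 6) m

def cnt7 (w : Fin 7 → Bool) : ℕ :=
  (w 0).toNat + (w 1).toNat + (w 2).toNat + (w 3).toNat + (w 4).toNat + (w 5).toNat + (w 6).toNat

lemma fun7 {P : (Fin 7 → Bool) → Prop}
    (h : ∀ a b c d e f g : Bool, P ![a, b, c, d, e, f, g]) (w : Fin 7 → Bool) : P w := by
  have := h (w 0) (w 1) (w 2) (w 3) (w 4) (w 5) (w 6)
  convert this using 1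
  ext i
  fin_cases i <;> rfl

lemma F1 (w : Fin 7 → Bool) : dd (w 0) (maj5 w) + dd (w 3) (maj5 w) + dd (w 4) (maj5 w) +
    dd (w 5) (maj5 w) + dd (w 6) (maj5 w) ≤ tI w := by
  revert w
  apply fun7
  decide +kernel

lemma F2 (w : Fin 7 → Bool) (h : maj5 w = false) (h' : cnt7 w ≠ 0) : 2 ≤ tI w := by
  revert h h'
  revert w
  apply fun7
  decide +kernel

lemma F3 (w : Fin 7 → Bool) (h : maj5 w = false) (h' : 3 ≤ cnt7 w) :
    5 ≤ tI w + ((w 0).toNat + (w 3).toNat + (w 4).toNat + (w 5).toNat + (w 6).toNat) := by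
  revert h h'
  revert w
  apply fun7
  decide +kernel

lemma F4 (w : Fin 7 → Bool) (h : maj5 w = false) (h' : 2 ≤ cnt7 w) (h2 : tI w ≤ 2) :
    (w 3 = true ∧ w 6 = true) ∨ (w 4 = true ∧ w 5 = true) := by
  revert h h' h2
  revert w
  apply fun7
  decide +kernel

lemma F5 (w : Fin 7 → Bool) : dev7 w (maj7 w) ≤ ring7 w := by
  revert w
  apply fun7
  decide +kernel

lemma F6 (w : Fin 7 → Bool) (h : dev7 w (maj7 w) ≠ 0) : 4 ≤ ring7 w := by
  revert h
  revert w
  apply fun7
  decide +kernel

lemma maj5_not (w : Fin 7 → Bool) : maj5 (fun v => !(w v)) = !(maj5 w) := by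
  revert w
  apply fun7
  decide +kernel

variable {n : ℕ} [NeZero n]

/-- sum of `F` over the pairs of ends of all edges joining different theta graphs -/
def LS (F : RV n → RV n → ℕ) : ℕ :=
  (∑ i : ZMod n × Bool, ∑ s : Fin 7, (F (i, (s, 5)) (i, (s + 1, 3)) + F (i, (s, 6)) (i, (s + 1, 4))))
    + ∑ c : ZMod n × Fin 7, F ((c.1, false), (c.2, 0)) (nb (c.1, false) c.2, (pm c.2, 0))

lemma LS_add (F G : RV n → RV n → ℕ) : LS (fun x y => F x y + G x y) = LS F + LS G := by
  unfold LS
  simp only [Finset.sum_add_distrib]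
  ring

lemma LS_mono (F G : RV n → RV n → ℕ) (h : ∀ x y, F x y ≤ G x y) : LS F ≤ LS G := by
  unfold LS
  gcongr with i _ s _ c _
  · exact h _ _
  · exact h _ _
  · exact h _ _

lemma sum_B (g : ZMod n × Bool → Fin 7 → ℕ) :
    ∑ c : ZMod n × Fin 7, (g (c.1, false) c.2 + g (nb (c.1, false) c.2) (pm c.2)) =
      ∑ i : ZMod n × Bool, ∑ s : Fin 7, g i s := by
  let β : Equiv.Perm (ZMod n × Fin 7) :=
    { toFun := fun c => (if c.2 < 4 then c.1 else c.1 - 1, pm c.2)
      invFun := fun c => (if c.2 < 4 then c.1 else c.1 + 1, pm c.2)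
      left_inv := by
        rintro ⟨k, s⟩
        simp only [pm_pm, pm_lt]
        by_cases h : s < 4 <;> simp [h]
      right_inv := by
        rintro ⟨k, s⟩
        simp only [pm_pm, pm_lt]
        by_cases h : s < 4 <;> simp [h] }
  rw [Finset.sum_add_distrib]
  have h1 : ∑ c : ZMod n × Fin 7, g (nb (c.1, false) c.2) (pm c.2) =
      ∑ c : ZMod n × Fin 7, g (c.1, true) c.2 := by
    rw [← Equiv.sum_comp β (fun c => g (c.1, true) c.2)]
    rfl
  rw [h1, Fintype.sum_prod_type, Fintype.sum_prod_type, Fintype.sum_prod_type]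
  simp only [Fintype.sum_bool]
  rw [← Finset.sum_add_distrib]
  apply Finset.sum_congr rfl
  intro k _
  ring

lemma LS_ends (g : RV n → ℕ) : LS (fun x y => g x + g y) =
    ∑ i : ZMod n × Bool, ∑ s : Fin 7, (g (i, (s, 0)) + g (i, (s, 3)) + g (i, (s, 4)) +
      g (i, (s, 5)) + g (i, (s, 6))) := by
  unfold LS
  rw [sum_B (fun i s => g (i, (s, 0)))]
  have h3 : ∀ i : ZMod n × Bool, ∀ v : Fin 7, ∑ s : Fin 7, g (i, (s + 1, v)) =
      ∑ s : Fin 7, g (i, (s, v)) := by
    intro i v
    exact Equiv.sum_comp (Equiv.addRight (1 : Fin 7)) (fun s => g (i, (s, v)))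
  simp only [Finset.sum_add_distrib, h3]
  ring

lemma cut_eq (U : RV n → Bool) :
    #{e : RE n | U (rsrc e) ≠ U (rtgt e)} =
      (∑ i : ZMod n × Bool, ∑ s : Fin 7, tI (fun v => U (i, (s, v)))) +
        LS (fun x y => dd (U x) (U y)) := by
  rw [Finset.card_filter]
  have h1 : ∀ e : RE n, (if U (rsrc e) ≠ U (rtgt e) then 1 else 0) =
      dd (U (rsrc e)) (U (rtgt e)) := by
    intro e
    cases U (rsrc e) <;> cases U (rtgt e) <;> rfl
  simp_rw [h1]
  rw [Fintype.sum_sum_type, Fintype.sum_prod_type]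
  simp_rw [Fintype.sum_prod_type (f := fun x : Fin 7 × Fin 10 => _)]
  unfold LS
  rw [← add_assoc, ← Finset.sum_add_distrib]
  refine congrArg₂ HAdd.hAdd ?_ (Finset.sum_congr rfl (fun c _ => by obtain ⟨k, s⟩ := c; rfl))
  apply Finset.sum_congr rfl
  intro i _
  rw [← Finset.sum_add_distrib]
  apply Finset.sum_congr rfl
  intro s _
  simp only [Fin.sum_univ_succ, rsrc, rtgt, csrc, ctgt, tI]
  simp [eu, ev, sh]
  ring

end Cuts
section Cuts2

variable {n : ℕ} [NeZero n]

/-- cut of a `0/1`-labelling of the theta graphs -/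
def cutM (M : ZMod n × Bool → Fin 7 → Bool) : ℕ :=
  (∑ i : ZMod n × Bool, ring7 (M i)) +
    ∑ c : ZMod n × Fin 7, dd (M (c.1, false) c.2) (M (nb (c.1, false) c.2) (pm c.2))

lemma LS_M (M : ZMod n × Bool → Fin 7 → Bool) :
    LS (fun x y => dd (M x.1 x.2.1) (M y.1 y.2.1)) = cutM M := by
  unfold LS cutM
  congr 1
  apply Finset.sum_congr rfl
  intro i _
  simp only [Fin.sum_univ_seven, ring7]
  have e0 : (0 : Fin 7) + 1 = 1 := by decide
  have e1 : (1 : Fin 7) + 1 = 2 := by decide
  have e2 : (2 : Fin 7) + 1 = 3 := by decide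
  have e3 : (3 : Fin 7) + 1 = 4 := by decide
  have e4 : (4 : Fin 7) + 1 = 5 := by decide
  have e5 : (5 : Fin 7) + 1 = 6 := by decide
  have e6 : (6 : Fin 7) + 1 = 0 := by decide
  rw [e0, e1, e2, e3, e4, e5, e6]
  ring

lemma dev7_eq (w : Fin 7 → Bool) (m : Bool) : dev7 w m = ∑ s, dd (w s) m := by
  rw [Fin.sum_univ_seven]; rfl

/-- labellings of the ring of cores -/
lemma ring_cut (y : ZMod n × Bool → Bool) (h : ∃ i j, y i ≠ y j) :
    6 ≤ ∑ c : ZMod n × Fin 7, dd (y (c.1, false)) (y (nb (c.1, false) c.2)) := by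
  rw [Fintype.sum_prod_type]
  have h1 : ∀ k : ZMod n, ∑ s : Fin 7, dd (y (k, false)) (y (nb (k, false) s)) =
      4 * dd (y (k, false)) (y (k, true)) + 3 * dd (y (k, false)) (y (k - 1, true)) := by
    intro k
    rw [Fin.sum_univ_seven]
    simp [nb]
    ring
  simp_rw [h1]
  rw [Finset.sum_add_distrib, ← Finset.mul_sum, ← Finset.mul_sum]
  set A := ∑ k : ZMod n, dd (y (k, false)) (y (k, true)) with hA
  set B := ∑ k : ZMod n, dd (y (k, false)) (y (k - 1, true)) with hB
  have hpar : Even (A + B) := by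
    have e1 : A + 2 * ∑ k : ZMod n, (y (k, false) && y (k, true)).toNat =
        ∑ k : ZMod n, (y (k, false)).toNat + ∑ k : ZMod n, (y (k, true)).toNat := by
      rw [hA, Finset.mul_sum, ← Finset.sum_add_distrib, ← Finset.sum_add_distrib]
      exact Finset.sum_congr rfl (fun k _ => dd_and _ _)
    have e2 : B + 2 * ∑ k : ZMod n, (y (k, false) && y (k - 1, true)).toNat =
        ∑ k : ZMod n, (y (k, false)).toNat + ∑ k : ZMod n, (y (k - 1, true)).toNat := by
      rw [hB, Finset.mul_sum, ← Finset.sum_add_distrib, ← Finset.sum_add_distrib]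
      exact Finset.sum_congr rfl (fun k _ => dd_and _ _)
    have e3 : ∑ k : ZMod n, (y (k - 1, true)).toNat = ∑ k : ZMod n, (y (k, true)).toNat :=
      Equiv.sum_comp (Equiv.subRight (1 : ZMod n)) (fun k => (y (k, true)).toNat)
    rw [e3] at e2
    rw [Nat.even_iff]
    omega
  have hpos : A + B ≠ 0 := by
    intro h0
    have hA0 : A = 0 := by omega
    have hB0 : B = 0 := by omega
    have hA' : ∀ k, y (k, false) = y (k, true) := fun k => by
      have := (Finset.sum_eq_zero_iff.1 (hA ▸ hA0)) k (Finset.mem_univ k)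
      exact dd_eq_zero this
    have hB' : ∀ k, y (k, false) = y (k - 1, true) := fun k => by
      have := (Finset.sum_eq_zero_iff.1 (hB ▸ hB0)) k (Finset.mem_univ k)
      exact dd_eq_zero this
    have hstep : ∀ j : ℕ, y ((j : ZMod n), true) = y (0, true) := by
      intro j
      induction j with
      | zero => simp
      | succ j ih =>
        rw [← hA', hB']
        simpa using ih
    have hall : ∀ k : ZMod n, y (k, true) = y (0, true) := by
      intro k
      have := hstep k.val
      rwa [ZMod.natCast_zmod_val] at this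
    have hall' : ∀ i : ZMod n × Bool, y i = y (0, true) := by
      rintro ⟨k, b⟩
      cases b
      · rw [hA', hall]
      · exact hall k
    obtain ⟨i, j, hij⟩ := h
    exact hij (by rw [hall' i, hall' j])
  obtain ⟨m, hm⟩ := hpar
  omega

lemma cutM_ge (M : ZMod n × Bool → Fin 7 → Bool) (h : ∃ i s j t, M i s ≠ M j t) :
    5 ≤ cutM M := by
  set y : ZMod n × Bool → Bool := fun i => maj7 (M i) with hy
  -- cleaning inequality
  have hclean : ∑ c : ZMod n × Fin 7, dd (y (c.1, false)) (y (nb (c.1, false) c.2)) +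
      ∑ i : ZMod n × Bool, (ring7 (M i) - dev7 (M i) (y i)) ≤ cutM M := by
    have h1 : ∑ c : ZMod n × Fin 7, dd (y (c.1, false)) (y (nb (c.1, false) c.2)) ≤
        ∑ c : ZMod n × Fin 7, (dd (M (c.1, false) c.2) (M (nb (c.1, false) c.2) (pm c.2)) +
          (dd (M (c.1, false) c.2) (y (c.1, false)) +
            dd (M (nb (c.1, false) c.2) (pm c.2)) (y (nb (c.1, false) c.2)))) :=
      Finset.sum_le_sum (fun c _ => dd_tri _ _ _ _)
    rw [Finset.sum_add_distrib, sum_B (fun i s => dd (M i s) (y i))] at h1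
    have h2 : ∑ i : ZMod n × Bool, ∑ s : Fin 7, dd (M i s) (y i) =
        ∑ i : ZMod n × Bool, dev7 (M i) (y i) := by
      apply Finset.sum_congr rfl
      intro i _
      rw [dev7_eq]
    rw [h2] at h1
    have h3 : ∑ i : ZMod n × Bool, (ring7 (M i) - dev7 (M i) (y i)) +
        ∑ i : ZMod n × Bool, dev7 (M i) (y i) = ∑ i : ZMod n × Bool, ring7 (M i) := by
      rw [← Finset.sum_add_distrib]
      apply Finset.sum_congr rfl
      intro i _
      have := F5 (M i)
      simp only [hy]
      omega
    unfold cutM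
    omega
  by_cases hc : ∃ i j, y i ≠ y j
  · have := ring_cut y hc
    omega
  · push Not at hc
    -- some core is not constant
    obtain ⟨i, s, hs⟩ : ∃ i s, M i s ≠ y i := by
      by_contra hcon
      push Not at hcon
      obtain ⟨i, s, j, t, hne⟩ := h
      exact hne (by rw [hcon i s, hcon j t, hc i j])
    have hring : ∀ i s, M i s ≠ y i → 4 ≤ ring7 (M i) := by
      intro i s hs
      apply F6
      rw [dev7_eq]
      intro h0
      have := (Finset.sum_eq_zero_iff.1 h0) s (Finset.mem_univ s)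
      exact hs (dd_eq_zero this)
    have hi := hring i s hs
    -- the edge leaving the core `i` at port `s`
    by_cases hn : M (nb i s) (pm s) = y i
    · -- that edge is cut
      have hcut : 1 ≤ ∑ c : ZMod n × Fin 7, dd (M (c.1, false) c.2)
          (M (nb (c.1, false) c.2) (pm c.2)) := by
        have hval : dd (M i s) (M (nb i s) (pm s)) = 1 := by
          rw [hn]; exact dd_ne hs
        rcases i with ⟨k, b⟩
        cases b
        · calc 1 = dd (M (k, false) s) (M (nb (k, false) s) (pm s)) := hval.symm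
            _ ≤ _ := Finset.single_le_sum
              (f := fun c : ZMod n × Fin 7 => dd (M (c.1, false) c.2)
                (M (nb (c.1, false) c.2) (pm c.2))) (fun c _ => Nat.zero_le _)
              (Finset.mem_univ ((k, s) : ZMod n × Fin 7))
        · have h5 : nb ((nb (k, true) s).1, false) (pm s) = (k, true) := by
            have := nb_nb (k, true) s
            simpa [nb] using this
          have h6 : nb (k, true) s = ((nb (k, true) s).1, false) := by simp [nb]
          calc 1 = dd (M (k, true) s) (M (nb (k, true) s) (pm s)) := hval.symm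
            _ = dd (M ((nb (k, true) s).1, false) (pm s))
                  (M (nb ((nb (k, true) s).1, false) (pm s)) (pm (pm s))) := by
                rw [h5, pm_pm, dd_comm, ← h6]
            _ ≤ _ := Finset.single_le_sum
              (f := fun c : ZMod n × Fin 7 => dd (M (c.1, false) c.2)
                (M (nb (c.1, false) c.2) (pm c.2))) (fun c _ => Nat.zero_le _)
              (Finset.mem_univ (((nb (k, true) s).1, pm s) : ZMod n × Fin 7))
      have h7 : ring7 (M i) ≤ ∑ i : ZMod n × Bool, ring7 (M i) :=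
        Finset.single_le_sum (f := fun i => ring7 (M i)) (fun i _ => Nat.zero_le _)
          (Finset.mem_univ i)
      unfold cutM
      omega
    · -- the neighbouring core is not constant either
      have hj := hring (nb i s) (pm s) (by rw [hc (nb i s) i]; exact hn)
      have h7 : ring7 (M i) + ring7 (M (nb i s)) ≤ ∑ i : ZMod n × Bool, ring7 (M i) := by
        rw [← Finset.sum_pair (nb_ne i s).symm (f := fun i => ring7 (M i))]
        exact Finset.sum_le_sum_of_subset (Finset.subset_univ _)
      unfold cutM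
      omega

end Cuts2
section Cuts3

variable {n : ℕ} [NeZero n]

lemma LS_mono' (F G : RV n → RV n → ℕ)
    (h : ∀ x y : RV n, (x.1, x.2.1) ≠ (y.1, y.2.1) → F x y ≤ G x y) : LS F ≤ LS G := by
  have hs : ∀ s : Fin 7, s ≠ s + 1 := by decide
  unfold LS
  gcongr with i _ s _ c _
  · apply h
    intro h'
    exact hs s (congrArg Prod.snd h')
  · apply h
    intro h'
    exact hs s (congrArg Prod.snd h')
  · apply h
    intro h'
    exact nb_ne (c.1, false) c.2 (congrArg Prod.fst h').symm

lemma cnt_eq (U : RV n → Bool) : #{v | U v = true} =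
    ∑ p : (ZMod n × Bool) × Fin 7, cnt7 (fun v => U (p.1, (p.2, v))) := by
  rw [Finset.card_filter, Fintype.sum_prod_type, Fintype.sum_prod_type
    (f := fun p : (ZMod n × Bool) × Fin 7 => cnt7 (fun v => U (p.1, (p.2, v))))]
  apply Finset.sum_congr rfl
  intro i _
  rw [Fintype.sum_prod_type]
  apply Finset.sum_congr rfl
  intro s _
  rw [Fin.sum_univ_seven]
  simp only [cnt7]
  have : ∀ b : Bool, (if b = true then 1 else 0) = b.toNat := by decide
  simp only [this]

lemma small_cut (U : RV n → Bool) (hM : ∀ i s, maj5 (fun v => U (i, (s, v))) = false)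
    (h3 : 3 ≤ #{v | U v = true}) : 5 ≤ #{e : RE n | U (rsrc e) ≠ U (rtgt e)} := by
  rw [cut_eq]
  set Lk := LS (fun x y => dd (U x) (U y)) with hLk
  set w : (ZMod n × Bool) × Fin 7 → Fin 7 → Bool := fun p v => U (p.1, (p.2, v)) with hw
  have hT : (∑ i : ZMod n × Bool, ∑ s : Fin 7, tI (fun v => U (i, (s, v)))) =
      ∑ p : (ZMod n × Bool) × Fin 7, tI (w p) := by
    rw [Fintype.sum_prod_type (f := fun p : (ZMod n × Bool) × Fin 7 => tI (w p))]
  rw [hT]
  rw [cnt_eq] at h3
  by_contra hcon
  push Not at hcon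
  set S : Finset ((ZMod n × Bool) × Fin 7) := {p | cnt7 (w p) ≠ 0} with hS
  have hMp : ∀ p, maj5 (w p) = false := fun p => hM p.1 p.2
  have hmem : ∀ p, p ∈ S ↔ cnt7 (w p) ≠ 0 := by intro p; simp [hS]
  have hST : ∀ S' : Finset ((ZMod n × Bool) × Fin 7), S' ⊆ S → 2 * #S' ≤
      ∑ p : (ZMod n × Bool) × Fin 7, tI (w p) := by
    intro S' hS'
    calc 2 * #S' = ∑ p ∈ S', 2 := by rw [Finset.sum_const, smul_eq_mul, mul_comm]
      _ ≤ ∑ p ∈ S', tI (w p) := Finset.sum_le_sum (fun p hp => F2 _ (hMp p) ((hmem p).1 (hS' hp)))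
      _ ≤ _ := Finset.sum_le_sum_of_subset (Finset.subset_univ _)
  have hS2 : #S ≤ 2 := by
    have := hST S (Finset.Subset.refl _)
    omega
  have hcnt : ∑ p : (ZMod n × Bool) × Fin 7, cnt7 (w p) = ∑ p ∈ S, cnt7 (w p) := by
    symm
    apply Finset.sum_subset (Finset.subset_univ _)
    intro p _ hp
    rw [hmem] at hp
    push Not at hp
    exact hp
  rw [hcnt] at h3
  have hUS : ∀ i s v, U (i, (s, v)) = true → (i, s) ∈ S := by
    intro i s v h
    rw [hmem]
    simp only [cnt7, hw]
    fin_cases v <;> simp at h <;> simp [h]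
  rcases Nat.lt_or_ge (#S) 2 with hlt | hge
  · rcases Nat.lt_or_ge (#S) 1 with hlt' | hge'
    · have : S = ∅ := by rw [← Finset.card_eq_zero]; omega
      rw [this] at h3
      simp at h3
    · obtain ⟨p, hp⟩ := Finset.card_eq_one.1 (le_antisymm (by omega) hge')
      rw [hp, Finset.sum_singleton] at h3
      have h5 := F3 (w p) (hMp p) h3
      have hL : LS (fun x y => (U x).toNat + (U y).toNat) ≤ Lk := by
        apply LS_mono'
        rintro ⟨i, s, v⟩ ⟨j, t, v'⟩ hne
        simp only at hne
        cases hx : U (i, (s, v)) <;> cases hy : U (j, (t, v'))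
        · decide
        · decide
        · decide
        · exfalso
          have h1 := hUS _ _ _ hx
          have h2 := hUS _ _ _ hy
          rw [hp, Finset.mem_singleton] at h1 h2
          exact hne (h1.trans h2.symm)
      rw [LS_ends (fun x => (U x).toNat)] at hL
      have h6 : (w p 0).toNat + (w p 3).toNat + (w p 4).toNat + (w p 5).toNat + (w p 6).toNat ≤
          ∑ i : ZMod n × Bool, ∑ s : Fin 7, ((U (i, (s, 0))).toNat + (U (i, (s, 3))).toNat +
            (U (i, (s, 4))).toNat + (U (i, (s, 5))).toNat + (U (i, (s, 6))).toNat) := by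
        rw [← Fintype.sum_prod_type (f := fun p : (ZMod n × Bool) × Fin 7 =>
          ((U (p.1, (p.2, 0))).toNat + (U (p.1, (p.2, 3))).toNat +
            (U (p.1, (p.2, 4))).toNat + (U (p.1, (p.2, 5))).toNat + (U (p.1, (p.2, 6))).toNat))]
        exact Finset.single_le_sum (f := fun p : (ZMod n × Bool) × Fin 7 =>
          ((U (p.1, (p.2, 0))).toNat + (U (p.1, (p.2, 3))).toNat +
            (U (p.1, (p.2, 4))).toNat + (U (p.1, (p.2, 5))).toNat + (U (p.1, (p.2, 6))).toNat))
          (fun _ _ => Nat.zero_le _) (Finset.mem_univ p)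
      have h7 : tI (w p) ≤ ∑ p : (ZMod n × Bool) × Fin 7, tI (w p) :=
        Finset.single_le_sum (f := fun p => tI (w p)) (fun _ _ => Nat.zero_le _)
          (Finset.mem_univ p)
      omega
  · -- exactly two nonempty theta graphs
    have hS2' : #S = 2 := le_antisymm hS2 hge
    have h4 := hST S (Finset.Subset.refl _)
    have hLk0 : Lk = 0 := by omega
    have hlinks : ∀ i s, U (i, (s, 5)) = U (i, (s + 1, 3)) ∧ U (i, (s, 6)) = U (i, (s + 1, 4)) := by
      intro i s
      rw [hLk] at hLk0
      unfold LS at hLk0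
      have h1 := (Nat.add_eq_zero_iff.1 hLk0).1
      have h2 := (Finset.sum_eq_zero_iff.1 h1) i (Finset.mem_univ i)
      have h3 := (Finset.sum_eq_zero_iff.1 h2) s (Finset.mem_univ s)
      have h4 := Nat.add_eq_zero_iff.1 h3
      exact ⟨dd_eq_zero h4.1, dd_eq_zero h4.2⟩
    obtain ⟨p, q, hpq, hSpq⟩ := Finset.card_eq_two.1 hS2'
    have hp2 := F2 _ (hMp p) ((hmem p).1 (by rw [hSpq]; simp))
    have hq2 := F2 _ (hMp q) ((hmem q).1 (by rw [hSpq]; simp))
    have hpq4 : tI (w p) + tI (w q) ≤ 4 := by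
      have : tI (w p) + tI (w q) ≤ ∑ p : (ZMod n × Bool) × Fin 7, tI (w p) := by
        rw [← Finset.sum_pair hpq (f := fun p => tI (w p))]
        exact Finset.sum_le_sum_of_subset (Finset.subset_univ _)
      omega
    rw [hSpq, Finset.sum_pair hpq] at h3
    obtain ⟨⟨i, s⟩, hr2, hrt⟩ : ∃ r, 2 ≤ cnt7 (w r) ∧ tI (w r) ≤ 2 := by
      by_cases h : 2 ≤ cnt7 (w p)
      · exact ⟨p, h, by omega⟩
      · exact ⟨q, by omega, by omega⟩
    have hcase := F4 _ (hMp (i, s)) hr2 hrt
    have hs1 : s - 1 + 1 = s := sub_add_cancel s 1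
    have h00 : (i, s) ∈ S := by rw [hmem]; omega
    have hboth : (i, s - 1) ∈ S ∧ (i, s + 1) ∈ S := by
      rcases hcase with ⟨h1, h2⟩ | ⟨h1, h2⟩
      · simp only [hw] at h1 h2
        constructor
        · apply hUS _ _ 5
          rw [(hlinks i (s - 1)).1, hs1]; exact h1
        · apply hUS _ _ 4
          rw [← (hlinks i s).2]; exact h2
      · simp only [hw] at h1 h2
        constructor
        · apply hUS _ _ 6
          rw [(hlinks i (s - 1)).2, hs1]; exact h1
        · apply hUS _ _ 3
          rw [← (hlinks i s).1]; exact h2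
    have hd : ∀ s : Fin 7, s - 1 ≠ s ∧ s ≠ s + 1 ∧ s - 1 ≠ s + 1 := by decide
    have hsub : ({(i, s - 1), (i, s), (i, s + 1)} : Finset ((ZMod n × Bool) × Fin 7)) ⊆ S := by
      intro x hx
      simp only [Finset.mem_insert, Finset.mem_singleton] at hx
      rcases hx with rfl | rfl | rfl
      · exact hboth.1
      · exact h00
      · exact hboth.2
    have hcard : #({(i, s - 1), (i, s), (i, s + 1)} : Finset ((ZMod n × Bool) × Fin 7)) = 3 := by
      rw [Finset.card_eq_three]
      refine ⟨_, _, _, ?_, ?_, ?_, rfl⟩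
      · intro h; exact (hd s).1 (congrArg Prod.snd h)
      · intro h; exact (hd s).2.2 (congrArg Prod.snd h)
      · intro h; exact (hd s).2.1 (congrArg Prod.snd h)
    have := Finset.card_le_card hsub
    omega

lemma ring_cut5' (U : RV n → Bool) (h1 : 3 ≤ #{v | U v = true}) (h2 : 3 ≤ #{v | U v = false}) :
    5 ≤ #{e : RE n | U (rsrc e) ≠ U (rtgt e)} := by
  set M : ZMod n × Bool → Fin 7 → Bool := fun i s => maj5 (fun v => U (i, (s, v))) with hM
  by_cases hc : ∃ i s j t, M i s ≠ M j t
  · have h5 := cutM_ge M hc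
    have h6 : cutM M ≤ #{e : RE n | U (rsrc e) ≠ U (rtgt e)} := by
      rw [cut_eq, ← LS_M]
      calc LS (fun x y : RV n => dd (M x.1 x.2.1) (M y.1 y.2.1))
          ≤ LS (fun x y => dd (U x) (U y) + (dd (U x) (M x.1 x.2.1) + dd (U y) (M y.1 y.2.1))) :=
            LS_mono _ _ (fun x y => dd_tri _ _ _ _)
        _ = LS (fun x y => dd (U x) (U y)) + LS (fun x y => dd (U x) (M x.1 x.2.1) +
            dd (U y) (M y.1 y.2.1)) := LS_add _ _
        _ ≤ _ := by
            rw [LS_ends (fun x => dd (U x) (M x.1 x.2.1)), add_comm]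
            apply Nat.add_le_add_right
            apply Finset.sum_le_sum
            intro i _
            apply Finset.sum_le_sum
            intro s _
            exact F1 (fun v => U (i, (s, v)))
    omega
  · push Not at hc
    rcases Bool.eq_false_or_eq_true (M (0, false) 0) with hv | hv
    · have hM' : ∀ i s, maj5 (fun v => !(U (i, (s, v)))) = false := by
        intro i s
        rw [maj5_not]
        have : M i s = true := by rw [hc i s (0, false) 0, hv]
        simp only [hM] at this
        rw [this]; rfl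
      have := small_cut (fun x => !(U x)) hM' (by simpa using h2)
      simpa using this
    · refine small_cut U ?_ h1
      intro i s
      have : M i s = false := by rw [hc i s (0, false) 0, hv]
      exact this

lemma ring_cut5 : Cut5 (ringGraph n) := fun U h1 h2 => ring_cut5' U h1 h2

lemma ring_even : Even (Fintype.card (ringGraph n).V) := by
  have : Fintype.card (ringGraph n).V = Fintype.card (RV n) := rfl
  rw [this]
  simp only [Fintype.card_prod, Fintype.card_bool, ZMod.card, Fintype.card_fin]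
  exact ⟨n * 49, by ring⟩

lemma ring_class (k : ℕ) (hk : k ≤ 5) : (ringGraph n).InClass k :=
  ⟨ring_cubic, conn_of_cut5 ring_simple ring_cut5 ring_cubic ⟨((0, false), (0, 0))⟩,
    cyc_of_cut5 ring_simple ring_cut5 k hk⟩

end Cuts3

section Rigid

def dtab (s v : Fin 7) : ℕ :=
  ![![0, 1, 1, 2, 2, 2, 2], ![5, 4, 4, 3, 3, 4, 4], ![7, 6, 6, 5, 5, 6, 6],
    ![9, 8, 8, 7, 7, 8, 8], ![9, 8, 8, 8, 8, 7, 7], ![7, 6, 6, 6, 6, 5, 5],
    ![5, 4, 4, 4, 4, 3, 3]] s v

/-- distance in the core from the port with label `t` -/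
def dT (t : Fin 7) (x : CV) : ℕ := dtab (x.1 - t) x.2

lemma dT_step0 : ∀ e : CE, dT 0 (csrc e) ≤ dT 0 (ctgt e) + 1 ∧
    dT 0 (ctgt e) ≤ dT 0 (csrc e) + 1 := by
  decide +kernel

lemma dT_step (t : Fin 7) (e : CE) : dT t (csrc e) ≤ dT t (ctgt e) + 1 ∧
    dT t (ctgt e) ≤ dT t (csrc e) + 1 := by
  have h := dT_step0 (e.1 - t, e.2)
  have h1 : dT 0 (csrc (e.1 - t, e.2)) = dT t (csrc e) := by simp [dT, csrc]
  have h2 : dT 0 (ctgt (e.1 - t, e.2)) = dT t (ctgt e) := by
    simp only [dT, ctgt, sub_zero]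
    rw [sub_add_eq_add_sub]
  rw [h1, h2] at h
  exact h

lemma dT_adj (t : Fin 7) (x y : CV) (e : CE) (hx : CInc x e) (hy : CInc y e) :
    dT t y ≤ dT t x + 1 := by
  have h := dT_step t e
  rcases hx with rfl | rfl <;> rcases hy with rfl | rfl <;> omega

lemma dT_port : ∀ t s : Fin 7, dT t (s, 0) ≤ 5 → s = t ∨ s = t + 1 ∨ t = s + 1 := by
  decide +kernel

/-- adjacency of labels -/
def ladj (a b : Fin 7) : Prop := b = a + 1 ∨ a = b + 1

instance (a b : Fin 7) : Decidable (ladj a b) := by unfold ladj; infer_instance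

lemma no_triangle : ∀ a b c : Fin 7, ladj a b → ladj b c → ladj a c → False := by decide

variable {n m : ℕ} [NeZero n] [NeZero m]

/-- colouring of the edges of the ring graph which is proper away from the vertices `(j, y j)` -/
def psi (y : ZMod m × Bool → CV) (e : RE m) : Fin 3 :=
  match e with
  | Sum.inl (j, e) => col (y j) e
  | Sum.inr _ => 0

lemma proper_at (y : ZMod m × Bool → CV) (v : RV m) (hv : v.2 ≠ y v.1) (e e' : RE m)
    (he : RInc v e) (he' : RInc v e') (hne : e ≠ e') : psi y e ≠ psi y e' := by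
  obtain ⟨j, z⟩ := v
  simp only at hv
  rcases e with ⟨j1, e⟩ | c <;> rcases e' with ⟨j2, e'⟩ | c'
  · rw [inc_inl] at he he'
    obtain ⟨rfl, he⟩ := he
    obtain ⟨rfl, he'⟩ := he'
    rw [stl_spec] at he he'
    intro h
    exact hne (by rw [col_inj (y j) z hv e he e' he' h])
  · rw [inc_inl] at he
    obtain ⟨rfl, he⟩ := he
    rw [inc_inr'] at he'
    rw [stl_spec] at he
    exact col_ne (y j) z hv he'.1 e he
  · rw [inc_inl] at he'
    obtain ⟨rfl, he'⟩ := he'
    rw [inc_inr'] at he
    rw [stl_spec] at he'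
    exact (col_ne (y j) z hv he.1 e' he').symm
  · exfalso
    rw [inc_inr'] at he he'
    exact hne (by rw [he.2, he'.2])

/-- a map of edges together with a map of vertices that is injective on the stars -/
structure StarMap (f : RE n → RE m) (φ : RV n → RV m) : Prop where
  inc : ∀ v e, RInc v e → RInc (φ v) (f e)
  inj : ∀ v e e', RInc v e → RInc v e' → f e = f e' → e = e'

lemma core_map {f : RE n → RE m} {φ : RV n → RV m} (h : StarMap f φ) (i : ZMod n × Bool) :
    ∃ j : ZMod m × Bool, ∃ g : CV → CV, Function.Injective g ∧ ∀ x, φ (i, x) = (j, g x) := by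
  classical
  set W : Finset (RV m) := Finset.univ.image (fun x : CV => φ (i, x)) with hW
  have hWm : ∀ x : CV, φ (i, x) ∈ W := fun x => Finset.mem_image_of_mem _ (Finset.mem_univ x)
  have hWc : #W ≤ #(Finset.univ : Finset CV) := Finset.card_image_le
  by_cases hcase : ∀ j : ZMod m × Bool, ∃ y : CV, (j, y) ∉ W
  · exfalso
    choose y hy using hcase
    have hv : ∀ x : CV, (φ (i, x)).2 ≠ y (φ (i, x)).1 := by
      intro x hx
      apply hy (φ (i, x)).1
      rw [← hx]
      exact hWm x
    have key : ∀ (x : CV) (e e' : RE n), RInc (i, x) e → RInc (i, x) e' → e ≠ e' →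
        psi y (f e) ≠ psi y (f e') := by
      intro x e e' he he' hne
      exact proper_at y (φ (i, x)) (hv x) (f e) (f e') (h.inc _ _ he) (h.inc _ _ he')
        (fun h' => hne (h.inj _ _ _ he he' h'))
    refine uncolourable (fun e => psi y (f (Sum.inl (i, e))))
      (fun s => psi y (f (Sum.inr (ce i s)))) ?_ ?_
    · intro x e he e' he' hne
      apply key x
      · rw [inc_inl, stl_spec]; exact ⟨rfl, he⟩
      · rw [inc_inl, stl_spec]; exact ⟨rfl, he'⟩
      · intro h'
        exact hne (congrArg Prod.snd (Sum.inl.inj h'))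
    · intro s e he
      apply key (s, 0)
      · rw [inc_inl, stl_spec]; exact ⟨rfl, he⟩
      · rw [inc_inr']; exact ⟨rfl, rfl⟩
      · exact Sum.inl_ne_inr
  · push Not at hcase
    obtain ⟨j, hj⟩ := hcase
    have hinjJ : Function.Injective (fun y : CV => (j, y)) := fun a b hab => (Prod.mk.inj hab).2
    have hJ : (Finset.univ.image (fun y : CV => (j, y))) = W := by
      apply Finset.eq_of_subset_of_card_le
      · intro v hv
        rw [Finset.mem_image] at hv
        obtain ⟨y, _, rfl⟩ := hv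
        exact hj y
      · rw [Finset.card_image_of_injective _ hinjJ]
        exact hWc
    have h1 : ∀ x, (φ (i, x)).1 = j := by
      intro x
      have := hWm x
      rw [← hJ, Finset.mem_image] at this
      obtain ⟨y, _, hy⟩ := this
      rw [← hy]
    have h2 : ∀ x, φ (i, x) = (j, (φ (i, x)).2) := fun x => Prod.ext (h1 x) rfl
    refine ⟨j, fun x => (φ (i, x)).2, ?_, h2⟩
    have hc : #(Finset.univ.image (fun x : CV => φ (i, x))) = #(Finset.univ : Finset CV) := by
      rw [← hW, ← hJ, Finset.card_image_of_injective _ hinjJ]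
    have hinj := Finset.card_image_iff.1 hc
    intro a b hab
    have hab' : (φ (i, a)).2 = (φ (i, b)).2 := hab
    apply hinj (Finset.mem_coe.2 (Finset.mem_univ a)) (Finset.mem_coe.2 (Finset.mem_univ b))
    show φ (i, a) = φ (i, b)
    rw [h2 a, h2 b, hab']

/-- internal edges go to internal edges -/
lemma map_internal {f : RE n → RE m} {φ : RV n → RV m} (h : StarMap f φ) {i : ZMod n × Bool}
    {j : ZMod m × Bool} {g : CV → CV} (hg : Function.Injective g)
    (hφ : ∀ x, φ (i, x) = (j, g x)) (e : CE) :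
    ∃ e' : CE, f (Sum.inl (i, e)) = Sum.inl (j, e') ∧ ∀ x, CInc x e → CInc (g x) e' := by
  have h1 : ∀ x, CInc x e → RInc (j, g x) (f (Sum.inl (i, e))) := by
    intro x hx
    rw [← hφ]
    apply h.inc
    rw [inc_inl]; exact ⟨rfl, hx⟩
  have hs : RInc (j, g (csrc e)) (f (Sum.inl (i, e))) := h1 _ (Or.inl rfl)
  have ht : RInc (j, g (ctgt e)) (f (Sum.inl (i, e))) := h1 _ (Or.inr rfl)
  have hne : g (csrc e) ≠ g (ctgt e) := fun h' => csrc_ne_ctgt e (hg h')
  match hf : f (Sum.inl (i, e)) with
  | Sum.inl (j', e') =>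
    rw [hf, inc_inl] at hs
    obtain ⟨rfl, hs⟩ := hs
    refine ⟨e', rfl, ?_⟩
    intro x hx
    have := h1 x hx
    rw [hf, inc_inl] at this
    exact this.2
  | Sum.inr c =>
    exfalso
    rw [hf, inc_inr'] at hs ht
    apply hne
    have : (g (csrc e)).1 = (g (ctgt e)).1 := ce_inj j _ _ (by rw [← hs.2, ht.2])
    exact Prod.ext this (by rw [hs.1, ht.1])

/-- ports go to ports -/
lemma map_port {f : RE n → RE m} {φ : RV n → RV m} (h : StarMap f φ) {i : ZMod n × Bool}
    {j : ZMod m × Bool} {g : CV → CV} (hg : Function.Injective g)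
    (hφ : ∀ x, φ (i, x) = (j, g x)) (s : Fin 7) : (g (s, 0)).2 = 0 := by
  classical
  -- inner vertices go to inner vertices
  have h1 : ∀ x : CV, x.2 ≠ 0 → (g x).2 ≠ 0 := by
    intro x hx hgx
    have hc : #{e | CInc x e} ≤ #{e' | CInc (g x) e'} := by
      choose F hF1 hF2 using fun e => map_internal h hg hφ e
      apply Finset.card_le_card_of_injOn F
      · intro e he
        simp only [Finset.coe_filter, Finset.mem_univ, true_and, Set.mem_setOf_eq] at he ⊢
        exact hF2 e x he
      · intro e he e' he' hee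
        simp only [Finset.coe_filter, Finset.mem_univ, true_and, Set.mem_setOf_eq] at he he'
        have h3 : f (Sum.inl (i, e)) = f (Sum.inl (i, e')) := by rw [hF1, hF1, hee]
        have h4 := h.inj (i, x) _ _ (by rw [inc_inl]; exact ⟨rfl, he⟩)
          (by rw [inc_inl]; exact ⟨rfl, he'⟩) h3
        simpa using h4
    rw [stl_card, stl_card, if_neg hx, if_pos hgx] at hc
    omega
  by_contra hne
  set A : Finset CV := {x | x.2 ≠ 0} with hA
  have h2 : A.image g = A := by
    apply Finset.eq_of_subset_of_card_le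
    · intro y hy
      rw [Finset.mem_image] at hy
      obtain ⟨x, hx, rfl⟩ := hy
      simp only [hA, Finset.mem_filter, Finset.mem_univ, true_and] at hx ⊢
      exact h1 x hx
    · rw [Finset.card_image_of_injective _ hg]
  have h3 : g (s, 0) ∈ A.image g := by
    rw [h2]
    simp only [hA, Finset.mem_filter, Finset.mem_univ, true_and]
    exact hne
  rw [Finset.mem_image] at h3
  obtain ⟨x, hx, hx'⟩ := h3
  have := hg hx'
  simp only [hA, Finset.mem_filter, Finset.mem_univ, true_and] at hx
  rw [this] at hx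
  exact hx rfl

/-- the edge leaving a core at a port goes to the edge leaving the image core -/
lemma map_ce {f : RE n → RE m} {φ : RV n → RV m} (h : StarMap f φ) {i : ZMod n × Bool}
    {j : ZMod m × Bool} {g : CV → CV} (hg : Function.Injective g)
    (hφ : ∀ x, φ (i, x) = (j, g x)) (s : Fin 7) :
    f (Sum.inr (ce i s)) = Sum.inr (ce j (g (s, 0)).1) := by
  classical
  have hp := map_port h hg hφ s
  have himg : ({e | RInc (i, (s, 0)) e} : Finset (RE n)).image f =
      ({e | RInc (j, g (s, 0)) e} : Finset (RE m)) := by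
    apply Finset.eq_of_subset_of_card_le
    · intro y hy
      rw [Finset.mem_image] at hy
      obtain ⟨e, he, rfl⟩ := hy
      simp only [Finset.mem_filter, Finset.mem_univ, true_and] at he ⊢
      rw [← hφ]
      exact h.inc _ _ he
    · rw [ring_cubic', Finset.card_image_of_injOn, ring_cubic']
      intro e he e' he' hee
      simp only [Finset.coe_filter, Finset.mem_univ, true_and, Set.mem_setOf_eq] at he he'
      exact h.inj _ _ _ he he' hee
  have hmem : (Sum.inr (ce j (g (s, 0)).1) : RE m) ∈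
      ({e | RInc (i, (s, 0)) e} : Finset (RE n)).image f := by
    rw [himg]
    simp only [Finset.mem_filter, Finset.mem_univ, true_and]
    rw [inc_inr']
    exact ⟨hp, rfl⟩
  rw [Finset.mem_image] at hmem
  obtain ⟨e, he, hfe⟩ := hmem
  simp only [Finset.mem_filter, Finset.mem_univ, true_and] at he
  match e, he, hfe with
  | Sum.inl (i', e), he, hfe =>
    exfalso
    rw [inc_inl] at he
    obtain ⟨rfl, he⟩ := he
    obtain ⟨e', he', _⟩ := map_internal h hg hφ e
    rw [he'] at hfe
    simp at hfe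
  | Sum.inr c, he, hfe =>
    rw [inc_inr'] at he
    rw [← hfe, he.2]

lemma walk_edges : ∀ s : Fin 7, (CInc (s, 0) (s, 0) ∧ CInc (s, 1) (s, 0)) ∧
    (CInc (s, 1) (s, 3) ∧ CInc (s, 5) (s, 3)) ∧ (CInc (s, 5) (s, 8) ∧ CInc (s + 1, 3) (s, 8)) ∧
    (CInc (s + 1, 3) (s + 1, 2) ∧ CInc (s + 1, 1) (s + 1, 2)) ∧
    (CInc (s + 1, 1) (s + 1, 0) ∧ CInc (s + 1, 0) (s + 1, 0)) := by
  decide +kernel

lemma map_ladj {f : RE n → RE m} {φ : RV n → RV m} (h : StarMap f φ) {i : ZMod n × Bool}
    {j : ZMod m × Bool} {g : CV → CV} (hg : Function.Injective g)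
    (hφ : ∀ x, φ (i, x) = (j, g x)) (s : Fin 7) :
    ladj (g (s, 0)).1 (g (s + 1, 0)).1 := by
  obtain ⟨⟨a1, a2⟩, ⟨b1, b2⟩, ⟨c1, c2⟩, ⟨d1, d2⟩, ⟨e1, e2⟩⟩ := walk_edges s
  have p0 := map_port h hg hφ s
  have p1 := map_port h hg hφ (s + 1)
  have step : ∀ (x y : CV) (e : CE), CInc x e → CInc y e →
      dT (g (s, 0)).1 (g y) ≤ dT (g (s, 0)).1 (g x) + 1 := by
    intro x y e hx hy
    obtain ⟨e', _, he'⟩ := map_internal h hg hφ e
    exact dT_adj _ _ _ e' (he' x hx) (he' y hy)
  have h0 : dT (g (s, 0)).1 (g (s, 0)) = 0 := by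
    unfold dT
    rw [sub_self, p0]
    rfl
  have h1 := step _ _ _ a1 a2
  have h2 := step _ _ _ b1 b2
  have h3 := step _ _ _ c1 c2
  have h4 := step _ _ _ d1 d2
  have h5 := step _ _ _ e1 e2
  have h6 : dT (g (s, 0)).1 ((g (s + 1, 0)).1, 0) ≤ 5 := by
    have : g (s + 1, 0) = ((g (s + 1, 0)).1, 0) := Prod.ext rfl p1
    rw [← this]
    omega
  rcases dT_port _ _ h6 with h6 | h6 | h6
  · exfalso
    have : g (s + 1, 0) = g (s, 0) := Prod.ext h6 (by rw [p0, p1])
    have h7 := congrArg Prod.fst (hg this)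
    revert h7
    simp
  · exact Or.inl h6
  · exact Or.inr h6

end Rigid
section Final

variable {n m : ℕ} [NeZero n] [NeZero m]

lemma nb_lt (i : ZMod n × Bool) (s : Fin 7) (h : s < 4) : nb i s = nb i 0 := by
  rcases i with ⟨k, b⟩
  cases b <;> simp [nb, h]

lemma nb_ge (i : ZMod n × Bool) (s : Fin 7) (h : ¬ s < 4) : nb i s = nb i 4 := by
  rcases i with ⟨k, b⟩
  cases b <;> simp [nb, h]

lemma nb_zero_ne (hm : 2 ≤ m) (j : ZMod m × Bool) : nb j 0 ≠ nb j 4 := by
  haveI : Fact (1 < m) := ⟨hm⟩
  rcases j with ⟨k, b⟩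
  cases b
  · intro h
    have h1 : k = k - 1 := by simpa [nb] using h
    exact one_ne_zero (sub_eq_self.1 h1.symm)
  · simp [nb]

lemma ce_eq (j j' : ZMod m × Bool) (a b : Fin 7) (h : ce j a = ce j' b) :
    (j' = j ∧ b = a) ∨ (j' = nb j a ∧ b = pm a) := by
  have h1 : RInc (j', ((b, 0) : CV)) (Sum.inr (ce j' b)) := by
    rw [inc_inr]; exact Or.inl rfl
  rw [← h, inc_inr] at h1
  rcases h1 with h1 | h1
  · left
    simp only [Prod.mk.injEq] at h1
    exact ⟨h1.1, h1.2.1⟩
  · right
    simp only [Prod.mk.injEq] at h1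
    exact ⟨h1.1, h1.2.1⟩

/-- the map induced on the cores commutes with the two neighbour maps -/
lemma core_covering (hm : 2 ≤ m) {f : RE n → RE m} {φ : RV n → RV m} (h : StarMap f φ) :
    ∃ τ : ZMod n × Bool → ZMod m × Bool,
      ∀ i, τ (nb i 0) = nb (τ i) 0 ∧ τ (nb i 4) = nb (τ i) 4 := by
  choose τ g hg hφ using fun i => core_map h i
  refine ⟨τ, ?_⟩
  -- labels of ports
  set l : ZMod n × Bool → Fin 7 → Fin 7 := fun i s => (g i (s, 0)).1 with hl
  have hp : ∀ i s, (g i (s, 0)).2 = 0 := fun i s => map_port h (hg i) (hφ i) s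
  have hlinj : ∀ i s t, l i s = l i t → s = t := by
    intro i s t hst
    have : g i (s, 0) = g i (t, 0) := Prod.ext hst (by rw [hp, hp])
    exact congrArg Prod.fst (hg i this)
  have hadj : ∀ i s, ladj (l i s) (l i (s + 1)) := fun i s => map_ladj h (hg i) (hφ i) s
  have hce : ∀ i s, f (Sum.inr (ce i s)) = Sum.inr (ce (τ i) (l i s)) :=
    fun i s => map_ce h (hg i) (hφ i) s
  have hboth : ∀ i s, (τ (nb i s) = τ i ∧ l (nb i s) (pm s) = l i s) ∨
      (τ (nb i s) = nb (τ i) (l i s) ∧ l (nb i s) (pm s) = pm (l i s)) := by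
    intro i s
    apply ce_eq
    have h1 := hce i s
    have h2 := hce (nb i s) (pm s)
    rw [ce_nb, h1] at h2
    exact Sum.inr.inj h2
  -- no folds
  have hnofold : ∀ i s, τ (nb i s) ≠ τ i := by
    intro i s hfold
    have hfold' : ∀ t, nb i t = nb i s → l (nb i s) (pm t) = l i t := by
      intro t ht
      rcases hboth i t with h1 | h1
      · rw [← ht]; exact h1.2
      · exfalso
        rw [ht, hfold] at h1
        exact nb_ne _ _ h1.1.symm
    by_cases hs : s < 4
    · have e0 := hfold' 0 (by rw [nb_lt i s hs])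
      have e1 := hfold' 1 (by rw [nb_lt i s hs, nb_lt i 1 (by decide)])
      have e2 := hfold' 2 (by rw [nb_lt i s hs, nb_lt i 2 (by decide)])
      have a0 := hadj i 0
      have a1 := hadj i 1
      have b0 := hadj (nb i s) 0
      have p0 : pm 0 = 0 := by decide
      have p2 : pm 2 = 1 := by decide
      have q0 : (0 : Fin 7) + 1 = 1 := by decide
      have q1 : (1 : Fin 7) + 1 = 2 := by decide
      rw [p0] at e0
      rw [p2] at e2
      rw [q0] at a0 b0
      rw [q1] at a1
      rw [e0, e2] at b0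
      exact no_triangle _ _ _ a0 a1 b0
    · have e4 := hfold' 4 (by rw [nb_ge i s hs])
      have e6 := hfold' 6 (by rw [nb_ge i s hs, nb_ge i 6 (by decide)])
      have a4 := hadj i 4
      have a5 := hadj i 5
      have b4 := hadj (nb i s) 4
      have p4 : pm 4 = 4 := by decide
      have p6 : pm 6 = 5 := by decide
      have q4 : (4 : Fin 7) + 1 = 5 := by decide
      have q5 : (5 : Fin 7) + 1 = 6 := by decide
      rw [p4] at e4
      rw [p6] at e6
      rw [q4] at a4 b4
      rw [q5] at a5
      rw [e4, e6] at b4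
      exact no_triangle _ _ _ a4 a5 b4
  have hmove : ∀ i s, τ (nb i s) = nb (τ i) (l i s) := by
    intro i s
    rcases hboth i s with h1 | h1
    · exact absurd h1.1 (hnofold i s)
    · exact h1.1
  intro i
  have hne := nb_zero_ne hm (τ i)
  -- labels below four stay below four
  have hlow : ∀ s : Fin 7, s < 4 → l i s < 4 := by
    by_contra hcon
    push Not at hcon
    obtain ⟨s, hs, hls⟩ := hcon
    have h4 : τ (nb i 0) = nb (τ i) 4 := by
      rw [← nb_lt i s hs, hmove, nb_ge _ _ (by simpa using hls)]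
    have hall : ∀ t : Fin 7, t < 4 → 4 ≤ l i t := by
      intro t ht
      by_contra hlt
      have h5 : τ (nb i 0) = nb (τ i) 0 := by
        rw [← nb_lt i t ht, hmove, nb_lt _ _ (by simpa using hlt)]
      exact hne (by rw [← h5, h4])
    have c0 := hall 0 (by decide)
    have c1 := hall 1 (by decide)
    have c2 := hall 2 (by decide)
    have c3 := hall 3 (by decide)
    have n01 : l i 0 ≠ l i 1 := fun h' => absurd (hlinj i _ _ h') (by decide)
    have n02 : l i 0 ≠ l i 2 := fun h' => absurd (hlinj i _ _ h') (by decide)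
    have n03 : l i 0 ≠ l i 3 := fun h' => absurd (hlinj i _ _ h') (by decide)
    have n12 : l i 1 ≠ l i 2 := fun h' => absurd (hlinj i _ _ h') (by decide)
    have n13 : l i 1 ≠ l i 3 := fun h' => absurd (hlinj i _ _ h') (by decide)
    have n23 : l i 2 ≠ l i 3 := fun h' => absurd (hlinj i _ _ h') (by decide)
    omega
  have hhigh : ¬ l i 4 < 4 := by
    intro c4
    have c0 := hlow 0 (by decide)
    have c1 := hlow 1 (by decide)
    have c2 := hlow 2 (by decide)
    have c3 := hlow 3 (by decide)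
    have n01 : l i 0 ≠ l i 1 := fun h' => absurd (hlinj i _ _ h') (by decide)
    have n02 : l i 0 ≠ l i 2 := fun h' => absurd (hlinj i _ _ h') (by decide)
    have n03 : l i 0 ≠ l i 3 := fun h' => absurd (hlinj i _ _ h') (by decide)
    have n12 : l i 1 ≠ l i 2 := fun h' => absurd (hlinj i _ _ h') (by decide)
    have n13 : l i 1 ≠ l i 3 := fun h' => absurd (hlinj i _ _ h') (by decide)
    have n23 : l i 2 ≠ l i 3 := fun h' => absurd (hlinj i _ _ h') (by decide)
    have n04 : l i 0 ≠ l i 4 := fun h' => absurd (hlinj i _ _ h') (by decide)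
    have n14 : l i 1 ≠ l i 4 := fun h' => absurd (hlinj i _ _ h') (by decide)
    have n24 : l i 2 ≠ l i 4 := fun h' => absurd (hlinj i _ _ h') (by decide)
    have n34 : l i 3 ≠ l i 4 := fun h' => absurd (hlinj i _ _ h') (by decide)
    omega
  constructor
  · rw [hmove i 0, nb_lt _ _ (hlow 0 (by decide))]
  · rw [hmove i 4, nb_ge _ _ hhigh]

/-- two steps along the ring -/
def stp (i : ZMod n × Bool) : ZMod n × Bool := nb (nb i 0) 4

lemma stp_false (k : ZMod n) : stp (k, false) = (k + 1, false) := by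
  simp [stp, nb]

lemma stp_true (k : ZMod n) : stp (k, true) = (k - 1, true) := by
  simp [stp, nb]

lemma stp_iter_false (t : ℕ) (k : ZMod n) : stp^[t] (k, false) = (k + t, false) := by
  induction t with
  | zero => simp
  | succ t ih =>
    rw [Function.iterate_succ_apply', ih, stp_false]
    push_cast
    rw [add_assoc]

lemma stp_iter_true (t : ℕ) (k : ZMod n) : stp^[t] (k, true) = (k - t, true) := by
  induction t with
  | zero => simp
  | succ t ih =>
    rw [Function.iterate_succ_apply', ih, stp_true]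
    push_cast
    rw [sub_sub]

lemma dvd_of_starMap (hm : 2 ≤ m) {f : RE n → RE m} {φ : RV n → RV m} (h : StarMap f φ) :
    m ∣ n := by
  obtain ⟨τ, hτ⟩ := core_covering hm h
  have hstp : ∀ i, τ (stp i) = stp (τ i) := by
    intro i
    unfold stp
    rw [(hτ (nb i 0)).2, (hτ i).1]
  have hiter : ∀ (t : ℕ) i, τ (stp^[t] i) = stp^[t] (τ i) := by
    intro t
    induction t with
    | zero => intro i; rfl
    | succ t ih =>
      intro i
      rw [Function.iterate_succ_apply', Function.iterate_succ_apply', hstp, ih]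
  have h1 : stp^[n] ((0 : ZMod n), false) = (0, false) := by
    rw [stp_iter_false]; simp
  have h2 := hiter n (0, false)
  rw [h1] at h2
  rw [← ZMod.natCast_eq_zero_iff]
  rcases hj : τ (0, false) with ⟨k, b⟩
  rw [hj] at h2
  cases b
  · rw [stp_iter_false] at h2
    simpa using (congrArg Prod.fst h2)
  · rw [stp_iter_true] at h2
    have h3 : k = k - (n : ZMod m) := congrArg Prod.fst h2
    exact sub_eq_self.1 h3.symm

lemma dvd_of_le (hm : 2 ≤ m) (h : (ringGraph n).Le (ringGraph m)) : m ∣ n := by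
  obtain ⟨f, hf⟩ := h
  choose φ hφ1 hφ2 using
    fun v => star_of_cc (G := ringGraph n) (H := ringGraph m) ring_cubic ring_cubic ring_cut5
      ring_even f hf v
  exact dvd_of_starMap hm (f := f) (φ := φ) ⟨hφ1, hφ2⟩

/-- For `k = 4` and for `k = 5` the class `𝒞ₖ` contains an infinite antichain. -/
theorem result : ∀ k : ℕ, k = 4 ∨ k = 5 →
    ∃ G : ℕ → MultiGraph, (∀ i, (G i).InClass k) ∧ ∀ i j, i ≠ j → ¬ (G i).Le (G j) := by
  intro k hk
  have hp : ∀ i, (Nat.nth Nat.Prime i).Prime := fun i =>
    Nat.nth_mem_of_infinite Nat.infinite_setOf_prime i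
  haveI : ∀ i, NeZero (Nat.nth Nat.Prime i) := fun i => ⟨(hp i).ne_zero⟩
  refine ⟨fun i => ringGraph (Nat.nth Nat.Prime i), fun i => ring_class k (by omega), ?_⟩
  intro i j hij hle
  have h1 := dvd_of_le (hp j).two_le hle
  have h2 := (Nat.prime_dvd_prime_iff_eq (hp j) (hp i)).1 h1
  exact hij (Nat.nth_injective Nat.infinite_setOf_prime h2.symm)

end Final

end Pool.Agent.Results.MP_75ff39_co.InfiniteAntichain
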